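import Pool.Agent.V7H75.TP.Adv

set_option autoImplicit false

/-!
The jump of an oracle `X` is not computable in the join of `X` with a set `V`, if `V` has an
enumeration which is computable in `X` and in which the elements respect the computations.
-/

namespace Pool.Agent.V7H75.TG

open Encodable Pool.Agent.Helper227 Pool.Agent.V7H75.HF
open Pool.Agent.H548R2.Post (hlt En ext En_mono En_congr mem_WE_iff primrec_pow)
open Pool.Agent.V7H75.TP (el el_eta le_el bits_unique exists_bits ev_all rown c_pow c_pair sq_comp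
  pre_eq_of)

/-! ### joins -/

theorem join_even (X Z : ℕ → Bool) (n : ℕ) : X n = join X Z (2 * n) := by
  unfold join
  have h1 : 2 * n % 2 = 0 := by omega
  have h2 : 2 * n / 2 = n := by omega
  rw [if_pos h1, h2]

theorem join_odd (X Z : ℕ → Bool) (n : ℕ) : Z n = join X Z (2 * n + 1) := by
  unfold join
  have h1 : ¬ (2 * n + 1) % 2 = 0 := by omega
  have h2 : (2 * n + 1) / 2 = n := by omega
  rw [if_neg h1, h2]

theorem le_join (X Z : ℕ → Bool) : TLe X (join X Z) :=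
  tLe_of_computable (f := fun n : ℕ => 2 * n) (TP.c_mul (Computable.const 2) Computable.id)
    fun n => join_even X Z n

theorem le_join' (X Z : ℕ → Bool) : TLe Z (join X Z) :=
  tLe_of_computable (f := fun n : ℕ => 2 * n + 1)
    (Computable.succ.comp (TP.c_mul (Computable.const 2) Computable.id)) fun n => join_odd X Z n

theorem join_le {X Z Y : ℕ → Bool} (h1 : TLe X Y) (h2 : TLe Z Y) : TLe (join X Z) Y := by
  rw [tLe_iff_SI] at *
  have hd : Primrec fun y : ℕ × Bool => (y.1 / 2, y.2) :=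
    (Primrec.nat_div.comp Primrec.fst (Primrec.const 2)).pair Primrec.snd
  have h0 : PrimrecPred fun y : ℕ × Bool => y.1 % 2 = 0 :=
    Primrec.eq.comp (Primrec.nat_mod.comp Primrec.fst (Primrec.const 2)) (Primrec.const 0)
  refine (SI.or (SI.and (SI.of_prim h0) (h1.comp hd))
    (SI.and (SI.of_prim h0.not) (h2.comp hd))).of_eq fun y => ?_
  unfold join
  by_cases hy : y.1 % 2 = 0
  · simp [hy]
  · simp [hy]

theorem pre_join {Y P R : ℕ → Bool} {u : ℕ} (h1 : ∀ z < u, P z = R z) :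
    pre (join Y P) u = pre (join Y R) u := by
  refine pre_eq_of fun m hm => ?_
  unfold join
  by_cases hm2 : m % 2 = 0
  · rw [if_pos hm2, if_pos hm2]
  · rw [if_neg hm2, if_neg hm2, h1 _ (by omega)]

/-- an enumeration of `V` in which the elements respect the computations of `X` -/
structure Enu (D : ℕ → ℕ → Bool) (X V : ℕ → Bool) : Prop where
  mono : ∀ t t' z, t ≤ t' → D t z = true → D t' z = true
  lt : ∀ t i p x, D t (el i p x) = true → ¬ D 0 (el i p x) = true → x < t ∧ p ≤ i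
  uniq : ∀ t t' i p x x', D t (el i p x) = true → ¬ D 0 (el i p x) = true →
    D t' (el i p x') = true → ¬ D 0 (el i p x') = true → x = x'
  lock : ∀ t t' i p x, el i p x < t → D t' (el i p x) = true → ¬ D t (el i p x) = true →
    ∀ c < i + 1, ∀ w < 2 ^ ((i + 1) * (i + 1)), En t c (Nat.pair i w) X → En x c (Nat.pair i w) X
  lim : ∀ z, V z = true ↔ ∃ t, D t z = true

section defs

variable (D : ℕ → ℕ → Bool) (X : ℕ → Bool)

/-- the label acts by stage `t` -/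
def Ad (i p t : ℕ) : Prop := ∃ x < t, D t (el i p x) = true ∧ ¬ D 0 (el i p x) = true

/-- `w` codes the actions of the first labels by stage `t` -/
def wt (t i w : ℕ) : Prop := w < 2 ^ ((i + 1) * (i + 1)) ∧
  ∀ a < (i + 1) * (i + 1), (w / 2 ^ a % 2 = 1 ↔ Ad D (a / (i + 1)) (a % (i + 1)) t)

/-- the label `i` is locked -/
def lck (c u t i w : ℕ) : Prop := ¬ En u c (Nat.pair i w) X ∧ En t c (Nat.pair i w) X

def pc (E : List Bool × (ℕ × ℕ) → Prop) (c y : ℕ) : Prop :=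
  ∃ i w t u, y = Nat.pair i w ∧ c ≤ i ∧ i < u ∧ u ≤ t ∧
    (∃ v, wt D t c v ∧ E (pre (join X (D t)) u, (c, Nat.pair c v))) ∧ wt D t i w ∧
    (∀ i' < u, i < i' → ∀ w' < 2 ^ ((i' + 1) * (i' + 1)), wt D t i' w' → lck X c u t i' w') ∧
    ¬ En t c (Nat.pair i w) X

end defs

section comb

variable {D : ℕ → ℕ → Bool} {X V : ℕ → Bool} (hD : Enu D X V)

theorem wt_unique {t i w w' : ℕ} (h1 : wt D t i w) (h2 : wt D t i w') : w = w' :=
  bits_unique _ w w' h1.1 h2.1 fun a ha => (h1.2 a ha).trans (h2.2 a ha).symm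

theorem exists_wt (t i : ℕ) : ∃ w, wt D t i w := by
  classical
  obtain ⟨w, hw, h1⟩ := exists_bits
    (fun a => decide (Ad D (a / (i + 1)) (a % (i + 1)) t)) ((i + 1) * (i + 1))
  exact ⟨w, hw, fun a ha => (h1 a ha).trans (by simp)⟩

theorem wt_Ad {t t' i w i' p' : ℕ} (h1 : wt D t i w) (h2 : wt D t' i w)
    (hi : i' ≤ i) (hp : p' ≤ i) : Ad D i' p' t ↔ Ad D i' p' t' := by
  have ha : i' * (i + 1) + p' < (i + 1) * (i + 1) := by nlinarith
  have e1 : (i' * (i + 1) + p') / (i + 1) = i' := by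
    rw [mul_comm, Nat.mul_add_div (Nat.succ_pos i), Nat.div_eq_of_lt (by omega), add_zero]
  have e2 : (i' * (i + 1) + p') % (i + 1) = p' := by
    rw [mul_comm, Nat.mul_add_mod, Nat.mod_eq_of_lt (by omega)]
  have h3 := (h1.2 _ ha).symm.trans (h2.2 _ ha)
  rwa [e1, e2] at h3

theorem wt_of_Ad {t t' i w : ℕ} (h1 : wt D t i w)
    (h2 : ∀ i' ≤ i, ∀ p' ≤ i, (Ad D i' p' t ↔ Ad D i' p' t')) : wt D t' i w := by
  refine ⟨h1.1, fun a ha => (h1.2 a ha).trans (h2 _ ?_ _ ?_)⟩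
  · have : a / (i + 1) < i + 1 := Nat.div_lt_of_lt_mul ha
    omega
  · have : a % (i + 1) < i + 1 := Nat.mod_lt _ (Nat.succ_pos i)
    omega

include hD

theorem Ad_mono {i p t t' : ℕ} (ht : t ≤ t') (h1 : Ad D i p t) : Ad D i p t' := by
  obtain ⟨x, hx, h2, h3⟩ := h1
  exact ⟨x, by omega, hD.mono t t' _ ht h2, h3⟩

/-- the codes converge -/
theorem wt_final (i : ℕ) : ∃ w, ∃ T, ∀ t ≥ T, wt D t i w := by
  have h1 : ∃ T, ∀ t ≥ T, ∀ i' < i + 1, ∀ p' < i + 1, (Ad D i' p' t ↔ ∃ t', Ad D i' p' t') := by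
    refine ev_all (P := fun i' t => ∀ p' < i + 1, (Ad D i' p' t ↔ ∃ t', Ad D i' p' t')) _
      fun i' _ => ?_
    refine ev_all (P := fun p' t => (Ad D i' p' t ↔ ∃ t', Ad D i' p' t')) _ fun p' _ => ?_
    by_cases hex : ∃ t', Ad D i' p' t'
    · obtain ⟨t', ht'⟩ := hex
      exact ⟨t', fun t ht => ⟨fun h2 => ⟨t, h2⟩, fun _ => Ad_mono hD ht ht'⟩⟩
    · exact ⟨0, fun t _ => ⟨fun h2 => ⟨t, h2⟩, fun h2 => absurd h2 hex⟩⟩
  obtain ⟨T, hT⟩ := h1
  obtain ⟨w, hw⟩ := exists_wt (D := D) T i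
  refine ⟨w, T, fun t ht => wt_of_Ad hw fun i' hi' p' hp' => ?_⟩
  rw [hT T le_rfl i' (by omega) p' (by omega), hT t ht i' (by omega) p' (by omega)]

/-- the part of the set below `u` is final when the labels below `u` are final or locked -/
theorem preserve {c i0 u t w : ℕ} (hci : c ≤ i0) (hut : u ≤ t) (hw : wt D t i0 w)
    (hfin : ∃ T, ∀ t' ≥ T, wt D t' i0 w)
    (hlock : ∀ i' < u, i0 < i' → ∀ w' < 2 ^ ((i' + 1) * (i' + 1)), wt D t i' w' →
      lck X c u t i' w') :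
    pre (join X V) u = pre (join X (D t)) u := by
  refine pre_join fun z hz => ?_
  rw [Bool.eq_iff_iff, hD.lim]
  refine ⟨?_, fun h1 => ⟨t, h1⟩⟩
  rintro ⟨t1, h1⟩
  by_contra hc
  have h0 : ¬ D 0 z = true := fun h => hc (hD.mono 0 t z (Nat.zero_le t) h)
  have hle := le_el z.unpair.1.unpair.1 z.unpair.1.unpair.2 z.unpair.2
  have heta := el_eta z
  generalize z.unpair.1.unpair.1 = i at *
  generalize z.unpair.1.unpair.2 = p at *
  generalize z.unpair.2 = x at *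
  subst heta
  have hlt := hD.lt t1 i p x h1 h0
  rcases le_or_gt i i0 with hi | hi
  · obtain ⟨T, hT⟩ := hfin
    have h4 : Ad D i p (max T t1) := Ad_mono hD (le_max_right _ _) ⟨x, hlt.1, h1, h0⟩
    rw [← wt_Ad hw (hT _ (le_max_left _ _)) hi (by omega)] at h4
    obtain ⟨x', -, h5, h6⟩ := h4
    rw [hD.uniq t t1 i p x' x h5 h6 h1 h0] at h5
    exact hc h5
  · obtain ⟨w', hw'⟩ := exists_wt (D := D) t i
    obtain ⟨h4, h5⟩ := hlock i (by omega) hi w' hw'.1 hw'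
    have h7 := hD.lock t t1 i p x (by omega) h1 hc c (by omega) w' hw'.1 h5
    exact h4 (En_mono (by omega) h7)

/-- the combinatorial core -/
theorem comb {E : List Bool × (ℕ × ℕ) → Prop}
    (mE : ∀ (σ τ : List Bool) (a : ℕ × ℕ), σ <+: τ → E (σ, a) → E (τ, a)) {c : ℕ}
    (hc : ∀ y, y ∈ WE X c ↔ pc D X E c y)
    (hE : ∀ y, y ∉ WE X c ↔ ∃ u, E (pre (join X V) u, (c, y))) : False := by
  classical
  choose f hf using wt_final hD
  -- the first element is not enumerated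
  have claim2 : Nat.pair c (f c) ∉ WE X c := by
    intro h1
    obtain ⟨i, w, t, u, e1, h2, h3, h4, ⟨v, h5, h6⟩, h7, h8, -⟩ := (hc _).1 h1
    obtain ⟨e2, e3⟩ := Nat.pair_eq_pair.1 e1
    subst e2
    subst e3
    have e4 := wt_unique h5 h7
    subst e4
    have h9 := preserve hD (c := c) le_rfl h4 h7 (hf c) h8
    rw [← h9] at h6
    exact (hE _).2 ⟨u, h6⟩ h1
  have hex : ∃ u, c < u ∧ E (pre (join X V) u, (c, Nat.pair c (f c))) := by
    obtain ⟨u, hu⟩ := (hE _).1 claim2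
    exact ⟨max u (c + 1), by omega, mE _ _ _ (pre_prefix _ (le_max_left _ _)) hu⟩
  obtain ⟨hu1, hu2⟩ := Nat.find_spec hex
  have hmin := fun u => Nat.find_min (H := hex) (m := u)
  generalize Nat.find hex = u0 at *
  have claim1 : ∀ d i, c ≤ i → i < u0 → u0 - i ≤ d →
      Nat.pair i (f i) ∈ WE X c ∧ ¬ En u0 c (Nat.pair i (f i)) X := by
    intro d
    induction d with
    | zero => intro i _ h2 h3; omega
    | succ d ih =>
      intro i h1 h2 h3
      have ih' : ∀ i', i < i' → i' < u0 →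
          Nat.pair i' (f i') ∈ WE X c ∧ ¬ En u0 c (Nat.pair i' (f i')) X :=
        fun i' h4 h5 => ih i' (by omega) h5 (by omega)
      constructor
      · by_contra hcon
        apply hcon
        -- a late stage
        obtain ⟨T1, hT1⟩ := ev_all (P := fun i' t => wt D t i' (f i')) (u0 + 1)
          fun i' _ => hf i'
        obtain ⟨T2, hT2⟩ := ev_all (P := fun i' t => i < i' → En t c (Nat.pair i' (f i')) X) u0
          fun i' hi' => by
            by_cases hii : i < i'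
            · obtain ⟨s, hs⟩ := (mem_WE_iff _ _ _).1 (ih' i' hii hi').1
              exact ⟨s, fun t ht _ => En_mono ht hs⟩
            · exact ⟨0, fun t _ h4 => absurd h4 hii⟩
        obtain ⟨T3, hT3⟩ := ev_all (P := fun z t => (V z = true → D t z = true))
          u0 fun z _ => by
            by_cases hz : V z = true
            · obtain ⟨t, ht⟩ := (hD.lim z).1 hz
              exact ⟨t, fun t' ht' _ => hD.mono t t' z ht' ht⟩
            · exact ⟨0, fun t _ h4 => absurd h4 hz⟩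
        let t := max (max T1 T2) (max T3 u0)
        have hpre : pre (join X V) u0 = pre (join X (D t)) u0 := by
          refine pre_join fun z hz => ?_
          rw [Bool.eq_iff_iff]
          exact ⟨hT3 t (by omega) z hz, fun h4 => (hD.lim z).2 ⟨t, h4⟩⟩
        refine (hc _).2 ⟨i, f i, t, u0, rfl, h1, h2, by omega, ⟨f c, hT1 t (by omega) c (by omega), ?_⟩,
          hT1 t (by omega) i (by omega), ?_, ?_⟩
        · rw [← hpre]
          exact hu2
        · intro i' hi' hii w' _ hw'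
          have e1 := wt_unique hw' (hT1 t (by omega) i' (by omega))
          subst e1
          exact ⟨(ih' i' hii hi').2, hT2 t (by omega) i' hi' hii⟩
        · exact fun h4 => hcon ((mem_WE_iff _ _ _).2 ⟨t, h4⟩)
      · intro hcon
        obtain ⟨i1, w, t, u, e1, h4, h5, h6, ⟨v, h7, h8⟩, h9, h10, h11⟩ :=
          (hc _).1 ((mem_WE_iff _ _ _).2 ⟨u0, hcon⟩)
        obtain ⟨e2, e3⟩ := Nat.pair_eq_pair.1 e1
        subst e2
        subst e3
        have htu : t < u0 := by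
          by_contra hle
          exact h11 (En_mono (by omega) hcon)
        have h12 := preserve hD h1 h6 h9 (hf i) h10
        have e4 : v = f c := by
          obtain ⟨T, hT⟩ := hf c
          obtain ⟨T', hT'⟩ := hf i
          refine wt_unique h7 (wt_of_Ad (hT (max T T') (le_max_left _ _)) fun i' hi' p' hp' => ?_)
          exact wt_Ad (hT' (max T T') (le_max_right _ _)) h9 (by omega) (by omega)
        subst e4
        rw [← h12] at h8
        exact hmin u (by omega) ⟨by omega, h8⟩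
  exact claim2 (claim1 u0 c le_rfl hu1 (by omega)).1

end comb

/-! ### computability -/

section eff

/-- the enumeration which is coded in an oracle -/
def DD (O : ℕ → Bool) : ℕ → ℕ → Bool := rown (odd O)

theorem DD_UD : UD fun O (y : ℕ × ℕ) => DD O y.1 y.2 = true :=
  UD.query.comp (f := fun y : ℕ × ℕ => 2 * Nat.pair y.1 y.2 + 1)
    (Computable.succ.comp (TP.c_mul (Computable.const 2) (c_pair Computable.fst Computable.snd)))

theorem Ad_UD : UD fun O (y : ℕ × ℕ × ℕ) => Ad (DD O) y.1 y.2.1 y.2.2 := by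
  refine UD.ex_lt (p := fun O (y : ℕ × ℕ × ℕ) x => DD O y.2.2 (el y.1 y.2.1 x) = true ∧
    ¬ DD O 0 (el y.1 y.2.1 x) = true) (f := fun y => y.2.2) (UD.and ?_ (UD.not ?_))
    (Computable.snd.comp Computable.snd)
  · exact DD_UD.comp (f := fun z : (ℕ × ℕ × ℕ) × ℕ => (z.1.2.2, el z.1.1 z.1.2.1 z.2))
      ((Computable.snd.comp (Computable.snd.comp Computable.fst)).pair
        (TP.el_comp (Computable.fst.comp Computable.fst)
          (Computable.fst.comp (Computable.snd.comp Computable.fst)) Computable.snd))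
  · exact DD_UD.comp (f := fun z : (ℕ × ℕ × ℕ) × ℕ => (0, el z.1.1 z.1.2.1 z.2))
      ((Computable.const 0).pair (TP.el_comp (Computable.fst.comp Computable.fst)
          (Computable.fst.comp (Computable.snd.comp Computable.fst)) Computable.snd))

theorem wt_UD : UD fun O (y : ℕ × ℕ × ℕ) => wt (DD O) y.1 y.2.1 y.2.2 := by
  have hi : Computable fun y : ℕ × ℕ × ℕ => y.2.1 := Computable.fst.comp Computable.snd
  have hw : Computable fun y : ℕ × ℕ × ℕ => y.2.2 := Computable.snd.comp Computable.snd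
  refine UD.and (TP.UD.lt hw (c_pow (sq_comp hi))) ?_
  refine UD.all_lt (p := fun O (y : ℕ × ℕ × ℕ) a => (y.2.2 / 2 ^ a % 2 = 1 ↔
    Ad (DD O) (a / (y.2.1 + 1)) (a % (y.2.1 + 1)) y.1)) (f := fun y => (y.2.1 + 1) * (y.2.1 + 1))
    (TP.UD.iff ?_ ?_) (sq_comp hi)
  · refine UD.of_prim (Primrec.eq.comp (Primrec.nat_mod.comp (Primrec.nat_div.comp
      (Primrec.snd.comp (Primrec.snd.comp Primrec.fst))
      (primrec_pow.comp (Primrec.const 2) Primrec.snd)) (Primrec.const 2)) (Primrec.const 1))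
  · have h1 : Primrec fun z : (ℕ × ℕ × ℕ) × ℕ => z.1.2.1 + 1 :=
      Primrec.succ.comp (Primrec.fst.comp (Primrec.snd.comp Primrec.fst))
    exact Ad_UD.comp
      (f := fun z : (ℕ × ℕ × ℕ) × ℕ => (z.2 / (z.1.2.1 + 1), (z.2 % (z.1.2.1 + 1), z.1.1)))
      ((Primrec.nat_div.comp Primrec.snd h1).pair
        ((Primrec.nat_mod.comp Primrec.snd h1).pair (Primrec.fst.comp Primrec.fst))).to_comp

theorem Wt_UD : UD fun O (y : ℕ × ℕ) => join (evn O) (DD O y.1) y.2 = true := by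
  have hd : Primrec fun y : ℕ × ℕ => y.2 / 2 := Primrec.nat_div.comp Primrec.snd (Primrec.const 2)
  have h0 : UD fun (_ : ℕ → Bool) (y : ℕ × ℕ) => y.2 % 2 = 0 :=
    UD.of_prim (Primrec.eq.comp (Primrec.nat_mod.comp Primrec.snd (Primrec.const 2))
      (Primrec.const 0))
  have h1 : UD fun O (y : ℕ × ℕ) => evn O (y.2 / 2) = true :=
    (UD.evn UD.query).comp (f := fun y : ℕ × ℕ => y.2 / 2) hd.to_comp
  have h2 : UD fun O (y : ℕ × ℕ) => DD O y.1 (y.2 / 2) = true :=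
    DD_UD.comp (f := fun y : ℕ × ℕ => (y.1, y.2 / 2)) (Primrec.fst.pair hd).to_comp
  refine (UD.or (UD.and h0 h1) (UD.and h0.not h2)).of_eq fun O y => ?_
  unfold join
  by_cases hy : y.2 % 2 = 0
  · simp [hy]
  · simp [hy]

theorem EnX_UD : UD fun O (y : ℕ × ℕ × ℕ) => En y.1 y.2.1 y.2.2 (evn O) := UD.evn En_UD

theorem pc_U1 {E : List Bool × (ℕ × ℕ) → Prop} (hE : S1 E) :
    U1 fun O (y : ℕ × ℕ) => pc (DD O) (evn O) E y.1 y.2 := by
  have hEW : U1 fun O (y : ℕ × (ℕ × (ℕ × ℕ))) =>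
      E (pre (join (evn O) (DD O y.1)) y.2.1, y.2.2) := by
    have h1 : U1 fun V (y : ℕ × (ℕ × ℕ)) => E (pre V y.1, y.2) :=
      U1.of_pre (P := fun w : List Bool × (ℕ × (ℕ × ℕ)) => E (w.1, w.2.2))
        (hE.comp (Primrec.fst.pair (Primrec.snd.comp Primrec.snd))) Computable.fst
    exact U1.sub (F := fun O t => join (evn O) (DD O t))
      (UD.graph (F := fun O (y : ℕ × ℕ) => join (evn O) (DD O y.1) y.2) Wt_UD) h1
  have hwt := wt_UD
  -- the variables: `((((c, y), i), w), t), u`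
  refine U1.ex (p := fun O (y : ℕ × ℕ) i => ∃ w t u, y.2 = Nat.pair i w ∧ y.1 ≤ i ∧ i < u ∧ u ≤ t ∧
    (∃ v, wt (DD O) t y.1 v ∧ E (pre (join (evn O) (DD O t)) u, (y.1, Nat.pair y.1 v))) ∧
    wt (DD O) t i w ∧
    (∀ i' < u, i < i' → ∀ w' < 2 ^ ((i' + 1) * (i' + 1)), wt (DD O) t i' w' →
      lck (evn O) y.1 u t i' w') ∧ ¬ En t y.1 (Nat.pair i w) (evn O)) ?_
  refine U1.ex (p := fun O (y : (ℕ × ℕ) × ℕ) w => ∃ t u, y.1.2 = Nat.pair y.2 w ∧ y.1.1 ≤ y.2 ∧
    y.2 < u ∧ u ≤ t ∧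
    (∃ v, wt (DD O) t y.1.1 v ∧ E (pre (join (evn O) (DD O t)) u, (y.1.1, Nat.pair y.1.1 v))) ∧
    wt (DD O) t y.2 w ∧
    (∀ i' < u, y.2 < i' → ∀ w' < 2 ^ ((i' + 1) * (i' + 1)), wt (DD O) t i' w' →
      lck (evn O) y.1.1 u t i' w') ∧ ¬ En t y.1.1 (Nat.pair y.2 w) (evn O)) ?_
  refine U1.ex (p := fun O (y : ((ℕ × ℕ) × ℕ) × ℕ) t => ∃ u, y.1.1.2 = Nat.pair y.1.2 y.2 ∧
    y.1.1.1 ≤ y.1.2 ∧ y.1.2 < u ∧ u ≤ t ∧
    (∃ v, wt (DD O) t y.1.1.1 v ∧
      E (pre (join (evn O) (DD O t)) u, (y.1.1.1, Nat.pair y.1.1.1 v))) ∧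
    wt (DD O) t y.1.2 y.2 ∧
    (∀ i' < u, y.1.2 < i' → ∀ w' < 2 ^ ((i' + 1) * (i' + 1)), wt (DD O) t i' w' →
      lck (evn O) y.1.1.1 u t i' w') ∧ ¬ En t y.1.1.1 (Nat.pair y.1.2 y.2) (evn O)) ?_
  refine U1.ex (p := fun O (y : (((ℕ × ℕ) × ℕ) × ℕ) × ℕ) u => y.1.1.1.2 = Nat.pair y.1.1.2 y.1.2 ∧
    y.1.1.1.1 ≤ y.1.1.2 ∧ y.1.1.2 < u ∧ u ≤ y.2 ∧
    (∃ v, wt (DD O) y.2 y.1.1.1.1 v ∧
      E (pre (join (evn O) (DD O y.2)) u, (y.1.1.1.1, Nat.pair y.1.1.1.1 v))) ∧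
    wt (DD O) y.2 y.1.1.2 y.1.2 ∧
    (∀ i' < u, y.1.1.2 < i' → ∀ w' < 2 ^ ((i' + 1) * (i' + 1)), wt (DD O) y.2 i' w' →
      lck (evn O) y.1.1.1.1 u y.2 i' w') ∧
      ¬ En y.2 y.1.1.1.1 (Nat.pair y.1.1.2 y.1.2) (evn O)) ?_
  have pc' : Primrec fun y : ((((ℕ × ℕ) × ℕ) × ℕ) × ℕ) × ℕ => y.1.1.1.1.1 :=
    Primrec.fst.comp (Primrec.fst.comp (Primrec.fst.comp (Primrec.fst.comp Primrec.fst)))
  have py : Primrec fun y : ((((ℕ × ℕ) × ℕ) × ℕ) × ℕ) × ℕ => y.1.1.1.1.2 :=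
    Primrec.snd.comp (Primrec.fst.comp (Primrec.fst.comp (Primrec.fst.comp Primrec.fst)))
  have pi : Primrec fun y : ((((ℕ × ℕ) × ℕ) × ℕ) × ℕ) × ℕ => y.1.1.1.2 :=
    Primrec.snd.comp (Primrec.fst.comp (Primrec.fst.comp Primrec.fst))
  have pw : Primrec fun y : ((((ℕ × ℕ) × ℕ) × ℕ) × ℕ) × ℕ => y.1.1.2 :=
    Primrec.snd.comp (Primrec.fst.comp Primrec.fst)
  have pt : Primrec fun y : ((((ℕ × ℕ) × ℕ) × ℕ) × ℕ) × ℕ => y.1.2 := Primrec.snd.comp Primrec.fst
  have pu : Primrec fun y : ((((ℕ × ℕ) × ℕ) × ℕ) × ℕ) × ℕ => y.2 := Primrec.snd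
  refine U1.and ?_ (U1.and ?_ (U1.and ?_ (U1.and ?_ (U1.and ?_ (U1.and ?_ (U1.and ?_ ?_))))))
  · exact U1.of_prim (Primrec.eq.comp py (Primrec₂.natPair.comp pi pw))
  · exact U1.of_prim (Primrec.nat_le.comp pc' pi)
  · exact U1.of_prim (Primrec.nat_lt.comp pi pu)
  · exact U1.of_prim (Primrec.nat_le.comp pu pt)
  · refine U1.ex (p := fun O (y : ((((ℕ × ℕ) × ℕ) × ℕ) × ℕ) × ℕ) v =>
      wt (DD O) y.1.2 y.1.1.1.1.1 v ∧
      E (pre (join (evn O) (DD O y.1.2)) y.2, (y.1.1.1.1.1, Nat.pair y.1.1.1.1.1 v)))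
      (U1.and ?_ ?_)
    · exact hwt.pos.comp (f := fun z : (((((ℕ × ℕ) × ℕ) × ℕ) × ℕ) × ℕ) × ℕ =>
        (z.1.1.2, (z.1.1.1.1.1.1, z.2)))
        ((pt.comp Primrec.fst).pair ((pc'.comp Primrec.fst).pair Primrec.snd)).to_comp
    · exact hEW.comp (f := fun z : (((((ℕ × ℕ) × ℕ) × ℕ) × ℕ) × ℕ) × ℕ =>
        (z.1.1.2, (z.1.2, (z.1.1.1.1.1.1, Nat.pair z.1.1.1.1.1.1 z.2))))
        ((pt.comp Primrec.fst).pair ((pu.comp Primrec.fst).pair ((pc'.comp Primrec.fst).pair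
          (Primrec₂.natPair.comp (pc'.comp Primrec.fst) Primrec.snd)))).to_comp
  · exact hwt.pos.comp (f := fun y : ((((ℕ × ℕ) × ℕ) × ℕ) × ℕ) × ℕ => (y.1.2, (y.1.1.1.2, y.1.1.2)))
      (pt.pair (pi.pair pw)).to_comp
  · refine (UD.all_lt (p := fun O (y : ((((ℕ × ℕ) × ℕ) × ℕ) × ℕ) × ℕ) i' => y.1.1.1.2 < i' →
      ∀ w' < 2 ^ ((i' + 1) * (i' + 1)), wt (DD O) y.1.2 i' w' →
        lck (evn O) y.1.1.1.1.1 y.2 y.1.2 i' w') (f := fun y => y.2) (UD.imp ?_ ?_) pu.to_comp).pos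
    · exact TP.UD.lt (pi.comp Primrec.fst).to_comp Computable.snd
    · refine UD.all_lt (p := fun O (z : (((((ℕ × ℕ) × ℕ) × ℕ) × ℕ) × ℕ) × ℕ) w' =>
        wt (DD O) z.1.1.2 z.2 w' → lck (evn O) z.1.1.1.1.1.1 z.1.2 z.1.1.2 z.2 w')
        (f := fun z => 2 ^ ((z.2 + 1) * (z.2 + 1))) (UD.imp ?_ (UD.and (UD.not ?_) ?_))
        (c_pow (sq_comp Computable.snd))
      · exact hwt.comp (f := fun a : ((((((ℕ × ℕ) × ℕ) × ℕ) × ℕ) × ℕ) × ℕ) × ℕ =>
          (a.1.1.1.2, (a.1.2, a.2)))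
          ((pt.comp (Primrec.fst.comp Primrec.fst)).pair
            ((Primrec.snd.comp Primrec.fst).pair Primrec.snd)).to_comp
      · exact EnX_UD.comp (f := fun a : ((((((ℕ × ℕ) × ℕ) × ℕ) × ℕ) × ℕ) × ℕ) × ℕ =>
          (a.1.1.2, (a.1.1.1.1.1.1.1, Nat.pair a.1.2 a.2)))
          ((pu.comp (Primrec.fst.comp Primrec.fst)).pair
            ((pc'.comp (Primrec.fst.comp Primrec.fst)).pair
              (Primrec₂.natPair.comp (Primrec.snd.comp Primrec.fst) Primrec.snd))).to_comp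
      · exact EnX_UD.comp (f := fun a : ((((((ℕ × ℕ) × ℕ) × ℕ) × ℕ) × ℕ) × ℕ) × ℕ =>
          (a.1.1.1.2, (a.1.1.1.1.1.1.1, Nat.pair a.1.2 a.2)))
          ((pt.comp (Primrec.fst.comp Primrec.fst)).pair
            ((pc'.comp (Primrec.fst.comp Primrec.fst)).pair
              (Primrec₂.natPair.comp (Primrec.snd.comp Primrec.fst) Primrec.snd))).to_comp
  · exact EnX_UD.neg.comp (f := fun y : ((((ℕ × ℕ) × ℕ) × ℕ) × ℕ) × ℕ =>
      (y.1.2, (y.1.1.1.1.1, Nat.pair y.1.1.1.2 y.1.1.2)))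
      (pt.pair (pc'.pair (Primrec₂.natPair.comp pi pw))).to_comp

end eff

theorem not_jump_le {D : ℕ → ℕ → Bool} {X V : ℕ → Bool} (hD : Enu D X V)
    (hDX : TLe (fun m => D m.unpair.1 m.unpair.2) X) : ¬ TLe (jump X) (join X V) := by
  intro hle
  have h1 : SI (join X V) fun a : ℕ × ℕ => ¬ a.2 ∈ WE X a.1 := (si_WE X).decide_jump.2.trans hle
  obtain ⟨E, hE, mE, eE⟩ := h1
  have e1 : DD (join X fun m => D m.unpair.1 m.unpair.2) = D := by
    unfold DD
    rw [odd_join]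
    funext t z
    simp [rown]
  have h2 : SI X fun y : ℕ × ℕ => pc D X E y.1 y.2 := by
    have h3 := ((pc_U1 hE).si (join X fun m => D m.unpair.1 m.unpair.2)).trans
      (join_le (TuringReducible.refl _) hDX)
    rwa [e1, evn_join] at h3
  obtain ⟨c, hc⟩ := TP.SI.fixed_point h2
  exact comb hD mE hc (fun y => eE (c, y))

end Pool.Agent.V7H75.TG
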