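import Pool.Agent.V7H75.TG.Core

set_option autoImplicit false

/-!
Computability of the general construction.
-/

namespace Pool.Agent.V7H75.TG

open Encodable Pool.Agent.Helper227 Pool.Agent.V7H75.HF
open Pool.Agent.H548R2.Post (hlt En ext En_mono En_congr mem_WE_iff primrec_pow)
open Pool.Agent.V7H75.TP (Str SF Ap el el_eta le_el ev_all pre_eq_of lhi llv lf lk lL mk lhi_mk
  llv_mk lf_mk lk_mk lL_mk mk_eta lhi_le lhi_comp llv_comp lf_comp lk_comp lL_comp c_add c_mul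
  c_pow c_pair el_comp rown rown_UD fst_prim sec_prim)

section eff

variable {G P : ℕ → Str → Str} {S : ℕ → Str → ℕ → Prop} {b pb : ℕ → ℕ}

section base

variable (cP : Computable fun y : ℕ × Str => P y.1 y.2) (cb : Computable b) (cpb : Computable pb)

theorem Va_UD (cb : Computable b) (cpb : Computable pb) : UD fun _ (i : ℕ) => Va b pb i :=
  UD.and (TP.UD.eqn lhi_comp (cb.comp llv_comp)) (UD.and (TP.UD.lt lf_comp (cpb.comp llv_comp))
    (UD.and (TP.UD.le lk_comp llv_comp) (TP.UD.le lL_comp (cb.comp llv_comp))))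

/-- `En` on a string -/
theorem EnS_UD {α : Type} [Primcodable α] {s c y : α → ℕ} {f : α → Str} (hs : Computable s)
    (hc : Computable c) (hy : Computable y) (hf : Computable f) :
    UD fun _ (a : α) => En (s a) (c a) (y a) (ext (f a)) := by
  have h1 : UD fun (_ : ℕ → Bool) (x : Str × ℕ) => ext x.1 x.2 = true :=
    UD.of_prim (Primrec.eq.comp (Primrec.list_getD false) (Primrec.const true))
  have h2 : UD fun (_ : ℕ → Bool) (x : Str × (ℕ × ℕ × ℕ)) =>
      En x.2.1 x.2.2.1 x.2.2.2 (ext x.1) :=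
    UD.sub (F := fun (_ : ℕ → Bool) (σ : Str) => ext σ) h1 En_UD
  exact h2.comp (f := fun a : α => (f a, (s a, (c a, y a)))) (hf.pair (hs.pair (hc.pair hy)))

theorem sti_UD : UD fun _ (x : (ℕ × ℕ) × Str) => sti x.1.1 x.1.2 x.2 := by
  have hc : Computable fun z : (((ℕ × ℕ) × Str) × ℕ) × ℕ => z.1.2 :=
    Computable.snd.comp Computable.fst
  have h1 : Computable fun z : (((ℕ × ℕ) × Str) × ℕ) × ℕ => z.1.1 :=
    Computable.fst.comp Computable.fst
  have hi : Computable fun z : (((ℕ × ℕ) × Str) × ℕ) × ℕ => z.1.1.1.1 :=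
    Computable.fst.comp (Computable.fst.comp h1)
  have hx : Computable fun z : (((ℕ × ℕ) × Str) × ℕ) × ℕ => z.1.1.1.2 :=
    Computable.snd.comp (Computable.fst.comp h1)
  have hσ : Computable fun z : (((ℕ × ℕ) × Str) × ℕ) × ℕ => z.1.1.2 := Computable.snd.comp h1
  have hy : Computable fun z : (((ℕ × ℕ) × Str) × ℕ) × ℕ => Nat.pair z.1.1.1.1 z.2 :=
    c_pair hi Computable.snd
  refine UD.all_lt (p := fun _ (x : (ℕ × ℕ) × Str) c => ∀ w < 2 ^ ((x.1.1 + 1) * (x.1.1 + 1)),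
    En x.2.length c (Nat.pair x.1.1 w) (ext x.2) → En x.1.2 c (Nat.pair x.1.1 w) (ext x.2))
    (f := fun x => x.1.1 + 1) ?_ (Computable.succ.comp (Computable.fst.comp Computable.fst))
  refine UD.all_lt (p := fun _ (z : ((ℕ × ℕ) × Str) × ℕ) w =>
    En z.1.2.length z.2 (Nat.pair z.1.1.1 w) (ext z.1.2) →
      En z.1.1.2 z.2 (Nat.pair z.1.1.1 w) (ext z.1.2))
    (f := fun z => 2 ^ ((z.1.1.1 + 1) * (z.1.1.1 + 1))) (UD.imp ?_ ?_)
    (c_pow (TP.sq_comp (Computable.fst.comp (Computable.fst.comp Computable.fst))))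
  · exact EnS_UD (Computable.list_length.comp hσ) hc hy hσ
  · exact EnS_UD hx hc hy hσ

include cP cb cpb

theorem Good_UD : UD fun Y (y : ℕ × ℕ × ℕ) => Good P b pb y.1 y.2.1 y.2.2 Y := by
  have hi : Computable fun y : ℕ × ℕ × ℕ => y.1 := Computable.fst
  have hx : Computable fun y : ℕ × ℕ × ℕ => y.2.1 := Computable.fst.comp Computable.snd
  have hs : Computable fun y : ℕ × ℕ × ℕ => y.2.2 := Computable.snd.comp Computable.snd
  refine UD.and ((Va_UD cb cpb).comp hi) (UD.and (TP.UD.lt hx hs) (UD.and ?_ ?_))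
  · refine UD.all_lt (p := fun Y (y : ℕ × ℕ × ℕ) r => sti y.1 y.2.1 (P r (pre Y y.2.2)))
      (f := fun y => pb (llv y.1)) ?_ (cpb.comp (llv_comp.comp hi))
    refine TP.UD.of_preC (P := fun w : List Bool × ((ℕ × ℕ × ℕ) × ℕ) =>
      sti w.2.1.1 w.2.1.2.1 (P w.2.2 w.1)) ?_ (hs.comp Computable.fst)
    exact sti_UD.comp (f := fun w : List Bool × ((ℕ × ℕ × ℕ) × ℕ) =>
      (((w.2.1.1, w.2.1.2.1), P w.2.2 w.1) : (ℕ × ℕ) × Str))
      (Computable.pair (Computable.pair (hi.comp (Computable.fst.comp Computable.snd))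
        (hx.comp (Computable.fst.comp Computable.snd)))
        (cP.comp (g := fun w : List Bool × ((ℕ × ℕ × ℕ) × ℕ) => ((w.2.2, w.1) : ℕ × Str))
          ((Computable.snd.comp Computable.snd).pair Computable.fst)))
  · refine TP.UD.of_preC (P := fun w : List Bool × (ℕ × ℕ × ℕ) =>
      En (P (lf w.2.1) w.1).length (lk w.2.1) (el w.2.1 (lL w.2.1) w.2.2.1)
        (ext (P (lf w.2.1) w.1))) ?_ hs
    have hi' : Computable fun w : List Bool × (ℕ × ℕ × ℕ) => w.2.1 := hi.comp Computable.snd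
    have hp : Computable fun w : List Bool × (ℕ × ℕ × ℕ) => P (lf w.2.1) w.1 :=
      cP.comp (g := fun w : List Bool × (ℕ × ℕ × ℕ) => ((lf w.2.1, w.1) : ℕ × Str))
        ((lf_comp.comp hi').pair Computable.fst)
    exact EnS_UD (Computable.list_length.comp hp) (lk_comp.comp hi')
      (el_comp hi' (lL_comp.comp hi') (hx.comp Computable.snd)) hp

theorem Dec_UD : UD fun Y (y : ℕ × ℕ × ℕ) => Dec P b pb y.1 y.2.1 y.2.2 Y := by
  have hG := Good_UD cP cb cpb
  refine UD.and hG (UD.and ?_ ?_)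
  · refine UD.all_lt (p := fun Y (y : ℕ × ℕ × ℕ) s' => ∀ x' < s', ¬ Good P b pb y.1 x' s' Y)
      (f := fun y => y.2.2) ?_ (Computable.snd.comp Computable.snd)
    refine UD.all_lt (p := fun Y (z : (ℕ × ℕ × ℕ) × ℕ) x' => ¬ Good P b pb z.1.1 x' z.2 Y)
      (f := fun z => z.2) (UD.not ?_) Computable.snd
    exact hG.comp (f := fun w : ((ℕ × ℕ × ℕ) × ℕ) × ℕ => (w.1.1.1, (w.2, w.1.2)))
      ((Computable.fst.comp (Computable.fst.comp Computable.fst)).pair
        (Computable.snd.pair (Computable.snd.comp Computable.fst)))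
  · refine UD.all_lt (p := fun Y (y : ℕ × ℕ × ℕ) x' => ¬ Good P b pb y.1 x' y.2.2 Y)
      (f := fun y => y.2.1) (UD.not ?_) (Computable.fst.comp Computable.snd)
    exact hG.comp (f := fun z : (ℕ × ℕ × ℕ) × ℕ => (z.1.1, (z.2, z.1.2.2)))
      ((Computable.fst.comp Computable.fst).pair
        (Computable.snd.pair (Computable.snd.comp (Computable.snd.comp Computable.fst))))

/-- `Dec` on a string -/
theorem DecS_UD {α : Type} [Primcodable α] {i x s : α → ℕ} {f : α → Str} (hi : Computable i)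
    (hx : Computable x) (hs : Computable s) (hf : Computable f) :
    UD fun _ (a : α) => Dec P b pb (i a) (x a) (s a) (ext (f a)) := by
  have h1 : UD fun (_ : ℕ → Bool) (x : Str × ℕ) => ext x.1 x.2 = true :=
    UD.of_prim (Primrec.eq.comp (Primrec.list_getD false) (Primrec.const true))
  have h2 : UD fun (_ : ℕ → Bool) (x : Str × (ℕ × ℕ × ℕ)) =>
      Dec P b pb x.2.1 x.2.2.1 x.2.2.2 (ext x.1) :=
    UD.sub (F := fun (_ : ℕ → Bool) (σ : Str) => ext σ) h1 (Dec_UD cP cb cpb)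
  exact h2.comp (f := fun a : α => (f a, (i a, (x a, s a)))) (hf.pair (hi.pair (hx.pair hs)))

variable (cG : Computable fun y : ℕ × Str => G y.1 y.2)
  (cS : UD fun _ (y : (ℕ × Str) × ℕ) => S y.1.1 y.1.2 y.2)

include cG cS

/-- the condition for an element at the stages `t`, `s` -/
theorem St_UD : UD fun B (y : (ℕ × ℕ × ℕ) × (ℕ × ℕ)) => S (llv y.1.1) (pre B y.2.1) y.1.2.1 ∧
    y.2.2 ≤ (G y.1.2.1 (pre B y.2.1)).length ∧
    Dec P b pb y.1.1 y.1.2.2 y.2.2 (ext (G y.1.2.1 (pre B y.2.1))) := by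
  refine TP.UD.of_preC (P := fun w : List Bool × ((ℕ × ℕ × ℕ) × (ℕ × ℕ)) =>
    S (llv w.2.1.1) w.1 w.2.1.2.1 ∧ w.2.2.2 ≤ (G w.2.1.2.1 w.1).length ∧
      Dec P b pb w.2.1.1 w.2.1.2.2 w.2.2.2 (ext (G w.2.1.2.1 w.1))) ?_
    (Computable.fst.comp Computable.snd)
  have h1 : Computable fun w : List Bool × ((ℕ × ℕ × ℕ) × (ℕ × ℕ)) => w.2.1 :=
    Computable.fst.comp Computable.snd
  have hi : Computable fun w : List Bool × ((ℕ × ℕ × ℕ) × (ℕ × ℕ)) => w.2.1.1 :=
    Computable.fst.comp h1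
  have hd : Computable fun w : List Bool × ((ℕ × ℕ × ℕ) × (ℕ × ℕ)) => w.2.1.2.1 :=
    Computable.fst.comp (Computable.snd.comp h1)
  have hx : Computable fun w : List Bool × ((ℕ × ℕ × ℕ) × (ℕ × ℕ)) => w.2.1.2.2 :=
    Computable.snd.comp (Computable.snd.comp h1)
  have hs : Computable fun w : List Bool × ((ℕ × ℕ × ℕ) × (ℕ × ℕ)) => w.2.2.2 :=
    Computable.snd.comp (Computable.snd.comp Computable.snd)
  have hg : Computable fun w : List Bool × ((ℕ × ℕ × ℕ) × (ℕ × ℕ)) => G w.2.1.2.1 w.1 :=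
    cG.comp (g := fun w : List Bool × ((ℕ × ℕ × ℕ) × (ℕ × ℕ)) => ((w.2.1.2.1, w.1) : ℕ × Str))
      (hd.pair Computable.fst)
  refine UD.and ?_ (UD.and (TP.UD.le hs (Computable.list_length.comp hg))
    (DecS_UD cP cb cpb hi hx hs hg))
  exact cS.comp (f := fun w : List Bool × ((ℕ × ℕ × ℕ) × (ℕ × ℕ)) =>
    (((llv w.2.1.1, w.1), w.2.1.2.1) : (ℕ × Str) × ℕ))
    (Computable.pair ((llv_comp.comp hi).pair Computable.fst) hd)

theorem VV_U1 : U1 fun B (y : ℕ × ℕ × ℕ) => VV G P S b pb B y.1 y.2.1 y.2.2 := by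
  refine U1.ex (p := fun B (y : ℕ × ℕ × ℕ) t => ∃ s, S (llv y.1) (pre B t) y.2.1 ∧
    s ≤ (G y.2.1 (pre B t)).length ∧ Dec P b pb y.1 y.2.2 s (ext (G y.2.1 (pre B t)))) ?_
  refine U1.ex (p := fun B (y : (ℕ × ℕ × ℕ) × ℕ) s => S (llv y.1.1) (pre B y.2) y.1.2.1 ∧
    s ≤ (G y.1.2.1 (pre B y.2)).length ∧
      Dec P b pb y.1.1 y.1.2.2 s (ext (G y.1.2.1 (pre B y.2)))) ?_
  exact (St_UD cP cb cpb cG cS).pos.comp (f := fun y : ((ℕ × ℕ × ℕ) × ℕ) × ℕ =>
    (y.1.1, (y.1.2, y.2)))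
    ((Computable.fst.comp Computable.fst).pair ((Computable.snd.comp Computable.fst).pair
      Computable.snd))

theorem V_U1 : U1 fun B (z : ℕ) => V G P S b pb B z = true := by
  have hi : Primrec fun z : ℕ => z.unpair.1.unpair.1 := fst_prim.comp fst_prim
  have hp : Primrec fun z : ℕ => z.unpair.1.unpair.2 := sec_prim.comp fst_prim
  have hx : Primrec fun z : ℕ => z.unpair.2 := sec_prim
  refine ((VV_U1 cP cb cpb cG cS).comp (f := fun z : ℕ => (z.unpair.1.unpair.1,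
    (z.unpair.1.unpair.2, z.unpair.2))) (hi.pair (hp.pair hx)).to_comp).of_eq fun B z => ?_
  exact V_iff.symm

theorem W_U1 : U1 fun B (n : ℕ) => join B (V G P S b pb B) n = true := by
  have h1 : U1 fun B (n : ℕ) => (n % 2 = 0 ∧ B (n / 2) = true) ∨
      (¬ n % 2 = 0 ∧ V G P S b pb B (n / 2) = true) := by
    have hd : Primrec fun n : ℕ => n / 2 := Primrec.nat_div.comp Primrec.id (Primrec.const 2)
    have h0 : PrimrecPred fun n : ℕ => n % 2 = 0 :=
      Primrec.eq.comp (Primrec.nat_mod.comp Primrec.id (Primrec.const 2)) (Primrec.const 0)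
    exact U1.or (U1.and (U1.of_prim h0) (UD.query.pos.comp hd.to_comp))
      (U1.and (U1.of_prim h0.not) ((V_U1 cP cb cpb cG cS).comp hd.to_comp))
  refine h1.of_eq fun B n => ?_
  unfold join
  by_cases hn : n % 2 = 0
  · simp [hn]
  · simp [hn]

end base

end eff

end Pool.Agent.V7H75.TG
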