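import Pool.Agent.V7H75.TG.Adv

set_option autoImplicit false

/-!
A general construction: at each level an oracle sees finally one of finitely many oracles which
lie above it (its root), and the root sees the oracle along one of finitely many ways back. An
element is put in for all the oracles with the same root if this respects the computations along
all of the ways back.
-/

namespace Pool.Agent.V7H75.TG

open Encodable Pool.Agent.Helper227 Pool.Agent.V7H75.HF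
open Pool.Agent.H548R2.Post (hlt En ext En_mono En_congr mem_WE_iff primrec_pow)
open Pool.Agent.V7H75.TP (Str SF Ap el el_eta le_el ev_all pre_eq_of lhi llv lf lk lL mk lhi_mk
  llv_mk lf_mk lk_mk lL_mk mk_eta lhi_le)

section defs

variable (G P : ℕ → Str → Str) (S : ℕ → Str → ℕ → Prop) (b pb : ℕ → ℕ)

/-- the label is coherent -/
def Va (i : ℕ) : Prop :=
  lhi i = b (llv i) ∧ lf i < pb (llv i) ∧ lk i ≤ llv i ∧ lL i ≤ b (llv i)

/-- the watched numbers are settled on the string -/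
def sti (i x : ℕ) (σ : Str) : Prop :=
  ∀ c < i + 1, ∀ w < 2 ^ ((i + 1) * (i + 1)), En σ.length c (Nat.pair i w) (ext σ) →
    En x c (Nat.pair i w) (ext σ)

def Good (i x s : ℕ) (R : ℕ → Bool) : Prop :=
  Va b pb i ∧ x < s ∧ (∀ r < pb (llv i), sti i x (P r (pre R s))) ∧
    En (P (lf i) (pre R s)).length (lk i) (el i (lL i) x) (ext (P (lf i) (pre R s)))

def Dec (i x s : ℕ) (R : ℕ → Bool) : Prop :=
  Good P b pb i x s R ∧ (∀ s' < s, ∀ x' < s', ¬ Good P b pb i x' s' R) ∧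
    ∀ x' < x, ¬ Good P b pb i x' s R

/-- the element is put in -/
def VV (X : ℕ → Bool) (i d x : ℕ) : Prop :=
  ∃ t s, S (llv i) (pre X t) d ∧ s ≤ (G d (pre X t)).length ∧ Dec P b pb i x s (ext (G d (pre X t)))

open Classical in
noncomputable def V (X : ℕ → Bool) : ℕ → Bool :=
  fun z => decide (VV G P S b pb X z.unpair.1.unpair.1 z.unpair.1.unpair.2 z.unpair.2)

/-- the facts about the roots -/
structure Fine (X : ℕ → Bool) (n0 : ℕ) (ρ : ℕ → ℕ) (R : ℕ → ℕ → Bool) (Q : ℕ × ℕ × ℕ → Prop) :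
    Prop where
  ap : ∀ n ≥ n0, Ap (G (ρ n)) X (R n)
  back : ∀ n ≥ n0, ∃ f < pb n, Ap (P f) (R n) X
  le : ∀ n ≥ n0, ρ n ≤ b n
  si : SI X Q
  ex : ∀ n ≥ n0, ∃ T, Q (n, T, ρ n)
  ok : ∀ n T d, Q (n, T, d) → n0 ≤ n ∧ d = ρ n ∧ ∀ t ≥ T, ∀ d', S n (pre X t) d' ↔ d' = d

end defs

section facts

variable {G P : ℕ → Str → Str} {S : ℕ → Str → ℕ → Prop} {b pb : ℕ → ℕ}

theorem V_iff {X : ℕ → Bool} {z : ℕ} : V G P S b pb X z = true ↔
    VV G P S b pb X z.unpair.1.unpair.1 z.unpair.1.unpair.2 z.unpair.2 := by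
  unfold V
  simp

theorem V_el {X : ℕ → Bool} {i p x : ℕ} :
    V G P S b pb X (el i p x) = true ↔ VV G P S b pb X i p x := by
  unfold V el
  simp

theorem Good_congr {i x s : ℕ} {R R' : ℕ → Bool} (h : ∀ m < s, R m = R' m) :
    Good P b pb i x s R ↔ Good P b pb i x s R' := by
  unfold Good
  rw [pre_eq_of h]

theorem Dec_congr {i x s : ℕ} {R R' : ℕ → Bool} (h : ∀ m < s, R m = R' m) :
    Dec P b pb i x s R ↔ Dec P b pb i x s R' := by
  unfold Dec
  rw [Good_congr h]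
  refine and_congr_right fun _ => and_congr ?_ ?_
  · refine forall_congr' fun s' => forall_congr' fun hs' => forall_congr' fun x' =>
      forall_congr' fun _ => ?_
    rw [Good_congr fun m hm => h m (hm.trans hs')]
  · refine forall_congr' fun x' => forall_congr' fun _ => ?_
    rw [Good_congr h]

theorem Dec_unique {i x x' s s' : ℕ} {R : ℕ → Bool} (h1 : Dec P b pb i x s R)
    (h2 : Dec P b pb i x' s' R) : s = s' ∧ x = x' := by
  have hs : s = s' := by
    rcases lt_trichotomy s s' with hlt | heq | hlt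
    · exact absurd h1.1 (h2.2.1 s hlt x h1.1.2.1)
    · exact heq
    · exact absurd h2.1 (h1.2.1 s' hlt x' h2.1.2.1)
  subst hs
  refine ⟨rfl, ?_⟩
  rcases lt_trichotomy x x' with hlt | heq | hlt
  · exact absurd h1.1 (h2.2.2 x hlt)
  · exact heq
  · exact absurd h2.1 (h1.2.2 x' hlt)

theorem exists_Dec {i x s : ℕ} {R : ℕ → Bool} (h1 : Good P b pb i x s R) :
    ∃ x' s', Dec P b pb i x' s' R := by
  classical
  have hex : ∃ s, ∃ x, Good P b pb i x s R := ⟨s, x, h1⟩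
  have hex2 : ∃ x, Good P b pb i x (Nat.find hex) R := Nat.find_spec hex
  refine ⟨Nat.find hex2, Nat.find hex, Nat.find_spec hex2, fun s' hs' x' _ hg => ?_,
    fun x' hx' => Nat.find_min hex2 hx'⟩
  exact Nat.find_min hex hs' ⟨x', hg⟩

section low

variable (hG : ∀ d, SF (G d)) (hSb : ∀ n σ d, S n σ d → d ≤ b n)

include hG

theorem VV_unique {X : ℕ → Bool} {i p x x' : ℕ} (h1 : VV G P S b pb X i p x)
    (h2 : VV G P S b pb X i p x') : x = x' := by
  obtain ⟨t, s, -, h3, h4⟩ := h1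
  obtain ⟨t', s', -, h3', h4'⟩ := h2
  have key : ∀ t₀ s₀ x₀, t₀ ≤ max t t' → s₀ ≤ (G p (pre X t₀)).length →
      Dec P b pb i x₀ s₀ (ext (G p (pre X t₀))) →
      Dec P b pb i x₀ s₀ (ext (G p (pre X (max t t')))) := by
    intro t₀ s₀ x₀ ht h5 h6
    refine (Dec_congr fun m hm => ?_).1 h6
    exact (getD_of_prefix ((hG p).mono _ _ (pre_prefix X ht)) (lt_of_lt_of_le hm h5)).symm
  exact (Dec_unique (key t s x (le_max_left _ _) h3 h4)
    (key t' s' x' (le_max_right _ _) h3' h4')).2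

include hSb

theorem finite_low (X : ℕ → Bool) (n0 : ℕ) :
    {z | llv z.unpair.1.unpair.1 < n0 ∧ V G P S b pb X z = true}.Finite := by
  have h1 : {i | Va b pb i ∧ llv i < n0}.Finite := by
    have h2 : {i | Va b pb i ∧ llv i < n0} ⊆ (fun y : ℕ × ℕ × ℕ × ℕ × ℕ =>
        mk y.1 y.2.1 y.2.2.1 y.2.2.2.1 y.2.2.2.2) ''
        ⋃ n ∈ Finset.range n0, ((Finset.range (b n + 1) ×ˢ Finset.range n0 ×ˢ
          Finset.range (pb n) ×ˢ Finset.range n0 ×ˢ Finset.range (b n + 1) : Finset _) :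
            Set (ℕ × ℕ × ℕ × ℕ × ℕ)) := by
      rintro i ⟨hv, hn⟩
      refine ⟨(lhi i, llv i, lf i, lk i, lL i), ?_, mk_eta i⟩
      simp only [Set.mem_iUnion]
      refine ⟨llv i, by simpa using hn, ?_⟩
      obtain ⟨a1, a2, a3, a4⟩ := hv
      simp only [Finset.coe_product, Finset.coe_range, Set.mem_prod, Set.mem_Iio]
      refine ⟨by omega, hn, a2, by omega, by omega⟩
    refine Set.Finite.subset (Set.Finite.image _ ?_) h2
    exact Set.Finite.biUnion (Finset.finite_toSet _) fun n _ => Finset.finite_toSet _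
  have h3 : {z | llv z.unpair.1.unpair.1 < n0 ∧ V G P S b pb X z = true} ⊆
      ⋃ i ∈ {i | Va b pb i ∧ llv i < n0}, ⋃ p ∈ Finset.range (b (llv i) + 1),
        {z | ∃ x, z = el i p x ∧ VV G P S b pb X i p x} := by
    rintro z ⟨hn, hz⟩
    rw [← el_eta z, V_el] at hz
    simp only [Set.mem_iUnion]
    obtain ⟨t, s, h4, h5, h6⟩ := hz
    exact ⟨_, ⟨h6.1.1, hn⟩, z.unpair.1.unpair.2,
      Finset.mem_range.2 (Nat.lt_succ_of_le (hSb _ _ _ h4)), z.unpair.2, (el_eta z).symm,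
      t, s, h4, h5, h6⟩
  refine Set.Finite.subset (Set.Finite.biUnion h1 fun i _ =>
    Set.Finite.biUnion (Finset.finite_toSet _) fun p _ => ?_) h3
  refine Set.Subsingleton.finite ?_
  rintro z ⟨x, rfl, hx⟩ z' ⟨x', rfl, hx'⟩
  rw [VV_unique hG hx hx']

end low

section fine

variable {X : ℕ → Bool} {n0 : ℕ} {ρ : ℕ → ℕ} {R : ℕ → ℕ → Bool} {Q : ℕ × ℕ × ℕ → Prop}
  (hG : ∀ d, SF (G d)) (hP : ∀ f, SF (P f)) (hF : Fine G P S b pb X n0 ρ R Q)

include hF

theorem own_iff {n d : ℕ} : (∃ T, Q (n, T, d)) ↔ n0 ≤ n ∧ d = ρ n := by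
  constructor
  · rintro ⟨T, hT⟩
    exact ⟨(hF.ok _ _ _ hT).1, (hF.ok _ _ _ hT).2.1⟩
  · rintro ⟨h1, rfl⟩
    exact hF.ex n h1

theorem oth_iff {n d : ℕ} : (∃ T d', Q (n, T, d') ∧ d ≠ d') ↔ n0 ≤ n ∧ d ≠ ρ n := by
  constructor
  · rintro ⟨T, d', hT, hd⟩
    refine ⟨(hF.ok _ _ _ hT).1, fun h => hd ?_⟩
    rw [h, (hF.ok _ _ _ hT).2.1]
  · rintro ⟨h1, h2⟩
    obtain ⟨T, hT⟩ := hF.ex n h1
    exact ⟨T, ρ n, hT, h2⟩

theorem nn_iff {i d x : ℕ} : (∃ T d', Q (llv i, T, d') ∧ d ≠ d' ∧ ∀ t < T,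
      ∀ s < (G d (pre X t)).length + 1, ¬ (S (llv i) (pre X t) d ∧
        Dec P b pb i x s (ext (G d (pre X t))))) ↔
    n0 ≤ llv i ∧ d ≠ ρ (llv i) ∧ ¬ VV G P S b pb X i d x := by
  constructor
  · rintro ⟨T, d', hT, hd, h1⟩
    obtain ⟨h2, h3, h4⟩ := hF.ok _ _ _ hT
    refine ⟨h2, fun h => hd (by rw [h, h3]), ?_⟩
    rintro ⟨t, s, h5, h6, h7⟩
    by_cases ht : t < T
    · exact h1 t ht s (by omega) ⟨h5, h7⟩
    · exact hd ((h4 t (by omega) d).1 h5)
  · rintro ⟨h1, h2, h3⟩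
    obtain ⟨T, hT⟩ := hF.ex _ h1
    exact ⟨T, _, hT, h2, fun t _ s hs h4 => h3 ⟨t, s, h4.1, by omega, h4.2⟩⟩

include hG

/-- the elements which are put in at the root -/
theorem VV_iff {i x : ℕ} (hn : n0 ≤ llv i) :
    VV G P S b pb X i (ρ (llv i)) x ↔ ∃ s, Dec P b pb i x s (R (llv i)) := by
  have hap := hF.ap _ hn
  have key : ∀ t s, s ≤ (G (ρ (llv i)) (pre X t)).length →
      (Dec P b pb i x s (ext (G (ρ (llv i)) (pre X t))) ↔ Dec P b pb i x s (R (llv i))) := by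
    intro t s hs
    refine Dec_congr fun m hm => ?_
    have h7 := pre_getD (R (llv i)) (G (ρ (llv i)) (pre X t)).length m false (by omega)
    rw [← hap.eq_pre (hG _) t] at h7
    exact h7
  constructor
  · rintro ⟨t, s, -, h1, h2⟩
    exact ⟨s, (key t s h1).1 h2⟩
  · rintro ⟨s, h1⟩
    obtain ⟨T, hT⟩ := hF.ex _ hn
    obtain ⟨t, ht⟩ := hap.len (hG _) s
    refine ⟨max t T, s, ((hF.ok _ _ _ hT).2.2 _ (le_max_right _ _) _).2 rfl,
      ht _ (le_max_left _ _), (key _ s (ht _ (le_max_left _ _))).2 h1⟩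

omit hF hG in
theorem En_settle_str (c y : ℕ) {f : Str → Str} (hf : SF f) (Y : ℕ → Bool) :
    ∃ x0, ∀ x ≥ x0, ∀ s, En (f (pre Y s)).length c y (ext (f (pre Y s))) →
      En x c y (ext (f (pre Y s))) := by
  by_cases h : ∃ s, En (f (pre Y s)).length c y (ext (f (pre Y s)))
  · obtain ⟨s0, hs0⟩ := h
    refine ⟨(f (pre Y s0)).length, fun x hx s hs => ?_⟩
    rcases le_total s0 s with h1 | h1
    · refine En_mono hx ((En_congr fun m hm => ?_).1 hs0)
      exact (getD_of_prefix (hf.mono _ _ (pre_prefix Y h1)) hm).symm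
    · exact En_mono ((hf.mono _ _ (pre_prefix Y h1)).length_le.trans hx) hs
  · exact ⟨0, fun x _ s hs => absurd ⟨s, hs⟩ h⟩

omit hF hG in
theorem sti_settle (i : ℕ) {f : Str → Str} (hf : SF f) (Y : ℕ → Bool) :
    ∃ x0, ∀ x ≥ x0, ∀ s, sti i x (f (pre Y s)) := by
  have h1 : ∃ x0, ∀ x ≥ x0, ∀ c < i + 1, ∀ w < 2 ^ ((i + 1) * (i + 1)), ∀ s,
      En (f (pre Y s)).length c (Nat.pair i w) (ext (f (pre Y s))) →
      En x c (Nat.pair i w) (ext (f (pre Y s))) := by
    refine ev_all (P := fun c x => ∀ w < 2 ^ ((i + 1) * (i + 1)), ∀ s,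
      En (f (pre Y s)).length c (Nat.pair i w) (ext (f (pre Y s))) →
      En x c (Nat.pair i w) (ext (f (pre Y s)))) (i + 1) fun c _ => ?_
    exact ev_all (P := fun w x => ∀ s, En (f (pre Y s)).length c (Nat.pair i w)
      (ext (f (pre Y s))) → En x c (Nat.pair i w) (ext (f (pre Y s)))) _
      fun w _ => En_settle_str c (Nat.pair i w) hf Y
  obtain ⟨x0, hx0⟩ := h1
  exact ⟨x0, fun x hx s c hc w hw => hx0 x hx c hc w hw s⟩

include hP

/-- the set which is put in is not computable in the oracle -/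
theorem not_V_le : ¬ TLe (V G P S b pb X) X := by
  intro hle
  have h1 : SI X fun z : ℕ => z ∈ {z | V G P S b pb X z = false} :=
    (tLe_iff_SI.1 hle).comp (f := fun z : ℕ => (z, false)) (Primrec.id.pair (Primrec.const false))
  obtain ⟨k, hk⟩ := ceIn_iff_exists_WE.1 (SI.iff_ceIn.2 h1)
  have hn0 : n0 ≤ max n0 k := le_max_left _ _
  obtain ⟨f, hf, hap⟩ := hF.back _ hn0
  have hρ := hF.le _ hn0
  obtain ⟨i, e1, e2, e3, e4, e5⟩ : ∃ i, llv i = max n0 k ∧ lhi i = b (max n0 k) ∧ lf i = f ∧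
      lk i = k ∧ lL i = ρ (max n0 k) :=
    ⟨mk (b (max n0 k)) (max n0 k) f k (ρ (max n0 k)), llv_mk .., lhi_mk .., lf_mk .., lk_mk ..,
      lL_mk ..⟩
  rw [← e1] at hn0 hf hap hρ e2 e5
  rw [← e3] at hf hap
  have hva : Va b pb i := ⟨e2, hf, by rw [e4, e1]; exact le_max_right _ _, by rw [e5]; exact hρ⟩
  have hstr : ∀ s, ∀ m < (P (lf i) (pre (R (llv i)) s)).length,
      ext (P (lf i) (pre (R (llv i)) s)) m = X m := by
    intro s m hm
    have h7 := pre_getD X (P (lf i) (pre (R (llv i)) s)).length m false hm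
    rw [← hap.eq_pre (hP _) s] at h7
    exact h7
  by_cases hex : ∃ x, VV G P S b pb X i (ρ (llv i)) x
  · obtain ⟨x, hx⟩ := hex
    obtain ⟨s, hD⟩ := (VV_iff hG hF hn0).1 hx
    have h5 := hD.1.2.2.2
    have h6 : el i (ρ (llv i)) x ∈ WE X k := by
      rw [← e4, ← e5]
      exact (mem_WE_iff _ _ _).2 ⟨_, (En_congr (hstr s)).1 h5⟩
    rw [← hk] at h6
    have h7 : V G P S b pb X (el i (ρ (llv i)) x) = true := V_el.2 hx
    have h8 : V G P S b pb X (el i (ρ (llv i)) x) = false := h6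
    rw [h7] at h8
    exact absurd h8 (by simp)
  · have hall : ∀ x, el i (ρ (llv i)) x ∈ WE X k := by
      intro x
      rw [← hk]
      show V G P S b pb X (el i (ρ (llv i)) x) = false
      rw [← Bool.not_eq_true, V_el]
      exact fun h4 => hex ⟨x, h4⟩
    obtain ⟨x0, hx0⟩ := ev_all (P := fun r x => ∀ s, sti i x (P r (pre (R (llv i)) s)))
      (pb (llv i)) fun r _ => sti_settle i (hP r) (R (llv i))
    obtain ⟨s0, hs0⟩ := (mem_WE_iff _ _ _).1 (hall x0)
    obtain ⟨s1, hs1⟩ := hap.len (hP _) s0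
    let s := max s1 (x0 + 1)
    have hGd : Good P b pb i x0 s (R (llv i)) := by
      refine ⟨hva, by omega, fun r hr => hx0 x0 le_rfl r hr s, ?_⟩
      rw [e4, e5]
      refine (En_congr (hstr s)).2 (En_mono ?_ hs0)
      exact hs1 s (le_max_left _ _)
    obtain ⟨x, s', hD⟩ := exists_Dec hGd
    exact hex ⟨x, (VV_iff hG hF hn0).2 ⟨s', hD⟩⟩

end fine

/-! ### the enumeration -/

/-- one of the ways back shows the first digits of `X` at stage `s` -/
def Lam (P : ℕ → Str → Str) (pb : ℕ → ℕ) (X Y : ℕ → Bool) (n s t : ℕ) : Prop :=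
  ∃ r < pb n, t < (P r (pre Y s)).length ∧ ∀ a < t + 1, X a = (P r (pre Y s)).getD a false

def own (n0 : ℕ) (ρ : ℕ → ℕ) (z : ℕ) : Prop :=
  n0 ≤ llv z.unpair.1.unpair.1 ∧ z.unpair.1.unpair.2 = ρ (llv z.unpair.1.unpair.1)

open Classical in
noncomputable def DX (G P : ℕ → Str → Str) (S : ℕ → Str → ℕ → Prop) (b pb : ℕ → ℕ)
    (X : ℕ → Bool) (n0 : ℕ) (ρ : ℕ → ℕ) (R : ℕ → ℕ → Bool) (t z : ℕ) : Bool :=
  decide ((¬ own n0 ρ z ∧ V G P S b pb X z = true) ∨ (own n0 ρ z ∧ z < t ∧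
    ∃ s, ¬ Lam P pb X (R (llv z.unpair.1.unpair.1)) (llv z.unpair.1.unpair.1) s t ∧
      Dec P b pb z.unpair.1.unpair.1 z.unpair.2 s (R (llv z.unpair.1.unpair.1))))

theorem Lam_anti {X Y : ℕ → Bool} {n s t t' : ℕ} (h : t ≤ t') (h1 : Lam P pb X Y n s t') :
    Lam P pb X Y n s t := by
  obtain ⟨r, hr, h2, h3⟩ := h1
  exact ⟨r, hr, by omega, fun a ha => h3 a (by omega)⟩

theorem Lam_mono (hP : ∀ f, SF (P f)) {X Y : ℕ → Bool} {n s s' t : ℕ} (h : s ≤ s')
    (h1 : Lam P pb X Y n s t) : Lam P pb X Y n s' t := by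
  obtain ⟨r, hr, h2, h3⟩ := h1
  have h4 := (hP r).mono _ _ (pre_prefix Y h)
  refine ⟨r, hr, h2.trans_le h4.length_le, fun a ha => ?_⟩
  rw [h3 a ha]
  exact (getD_of_prefix h4 (by omega)).symm

section enu

variable {X : ℕ → Bool} {n0 : ℕ} {ρ : ℕ → ℕ} {R : ℕ → ℕ → Bool} {Q : ℕ × ℕ × ℕ → Prop}

theorem DX_iff {t z : ℕ} : DX G P S b pb X n0 ρ R t z = true ↔
    (¬ own n0 ρ z ∧ V G P S b pb X z = true) ∨ (own n0 ρ z ∧ z < t ∧
    ∃ s, ¬ Lam P pb X (R (llv z.unpair.1.unpair.1)) (llv z.unpair.1.unpair.1) s t ∧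
      Dec P b pb z.unpair.1.unpair.1 z.unpair.2 s (R (llv z.unpair.1.unpair.1))) := by
  unfold DX
  simp

/-- the elements which come in later -/
theorem DX_dyn {t i p x : ℕ} (h1 : DX G P S b pb X n0 ρ R t (el i p x) = true)
    (h0 : ¬ DX G P S b pb X n0 ρ R 0 (el i p x) = true) :
    (n0 ≤ llv i ∧ p = ρ (llv i)) ∧ el i p x < t ∧
      ∃ s, ¬ Lam P pb X (R (llv i)) (llv i) s t ∧ Dec P b pb i x s (R (llv i)) := by
  have e1 : (el i p x).unpair.1.unpair.1 = i := by simp [el]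
  have e2 : (el i p x).unpair.1.unpair.2 = p := by simp [el]
  have e3 : (el i p x).unpair.2 = x := by simp [el]
  rw [DX_iff] at h1 h0
  rcases h1 with h1 | h1
  · exact absurd (Or.inl h1) h0
  · unfold own at h1
    rw [e1, e2, e3] at h1
    exact h1

variable (hG : ∀ d, SF (G d)) (hP : ∀ f, SF (P f)) (hF : Fine G P S b pb X n0 ρ R Q)

include hG hP hF

theorem enu : Enu (DX G P S b pb X n0 ρ R) X (V G P S b pb X) where
  mono t t' z ht h1 := by
    rw [DX_iff] at *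
    refine h1.imp_right fun h2 => ⟨h2.1, by omega, ?_⟩
    obtain ⟨s, h3, h4⟩ := h2.2.2
    exact ⟨s, fun h => h3 (Lam_anti ht h), h4⟩
  lt t i p x h1 h0 := by
    obtain ⟨⟨h2, h3⟩, h4, s, h5, h6⟩ := DX_dyn h1 h0
    have h7 := (le_el i p x).2
    refine ⟨by omega, ?_⟩
    have h8 := hF.le _ h2
    have h9 := lhi_le i
    have h10 := h6.1.1.1
    omega
  uniq t t' i p x x' h1 h0 h1' h0' := by
    obtain ⟨-, -, s, -, h6⟩ := DX_dyn h1 h0
    obtain ⟨-, -, s', -, h6'⟩ := DX_dyn h1' h0'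
    exact (Dec_unique h6 h6').2
  lock t t' i p x hz h1 h2 c hc w hw hEn := by
    have h0 : ¬ DX G P S b pb X n0 ρ R 0 (el i p x) = true := by
      intro h
      apply h2
      rw [DX_iff] at h ⊢
      refine h.imp_right fun h3 => absurd h3.2.1 (Nat.not_lt_zero _)
    obtain ⟨h3, h4, s, h5, h6⟩ := DX_dyn h1 h0
    have e1 : (el i p x).unpair.1.unpair.1 = i := by simp [el]
    have e2 : (el i p x).unpair.1.unpair.2 = p := by simp [el]
    have e3 : (el i p x).unpair.2 = x := by simp [el]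
    have h7 : Lam P pb X (R (llv i)) (llv i) s t := by
      by_contra hc'
      apply h2
      rw [DX_iff]
      unfold own
      rw [e1, e2, e3]
      exact Or.inr ⟨h3, hz, s, hc', h6⟩
    obtain ⟨r, hr, h8, h9⟩ := h7
    have h10 := h6.1.2.2.1 r hr c hc w hw
    have h11 := (le_el i p x).2
    have h12 : En x c (Nat.pair i w) (ext (P r (pre (R (llv i)) s))) := by
      refine h10 (En_mono h8.le ((En_congr fun m hm => ?_).1 hEn))
      exact h9 m (by omega)
    exact (En_congr fun m hm => (h9 m (by omega)).symm).1 h12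
  lim z := by
    by_cases hz : own n0 ρ z
    · have h1 : V G P S b pb X z = true ↔ ∃ s, Dec P b pb z.unpair.1.unpair.1 z.unpair.2 s
          (R (llv z.unpair.1.unpair.1)) := by
        rw [V_iff, hz.2]
        exact VV_iff hG hF hz.1
      rw [h1]
      constructor
      · rintro ⟨s, hs⟩
        refine ⟨max (z + 1) s, DX_iff.2 (Or.inr ⟨hz, by omega, s, ?_, hs⟩)⟩
        rintro ⟨r, -, h2, -⟩
        have h3 := (hP r).len (pre (R (llv z.unpair.1.unpair.1)) s)
        rw [length_pre] at h3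
        omega
      · rintro ⟨t, ht⟩
        rcases DX_iff.1 ht with h2 | h2
        · exact absurd hz h2.1
        · obtain ⟨s, -, h3⟩ := h2.2.2
          exact ⟨s, h3⟩
    · constructor
      · intro h1
        exact ⟨0, DX_iff.2 (Or.inl ⟨hz, h1⟩)⟩
      · rintro ⟨t, ht⟩
        rcases DX_iff.1 ht with h2 | h2
        · exact h2.2
        · exact absurd h2.1 hz

end enu

end facts

end Pool.Agent.V7H75.TG
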