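import Pool.Agent.V7H75.TG.Str
import Pool.Agent.V7H75.TP.Eff

set_option autoImplicit false

/-!
The markers and the cuts of a sequence are computable, uniformly in the sequence.
-/

namespace Pool.Agent.V7H75.TG

open Encodable Pool.Agent.Helper227
open Pool.Agent.V7H75.HF
open Pool.Agent.H548R2.Post (primrec_pow)
open Pool.Agent.V7H75.TP (rown)

theorem bd_prim : Primrec₂ bd := by
  have h1 : Primrec fun m : ℕ × ℕ => (max m.1 m.2 + 1) ^ 2 := by
    have h2 : Primrec fun m : ℕ × ℕ => max m.1 m.2 + 1 :=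
      Primrec.succ.comp (Primrec.nat_max.comp Primrec.fst Primrec.snd)
    exact (Primrec.nat_mul.comp h2 h2).of_eq fun m => (sq _).symm
  have h2 : Primrec fun x : ℕ × ℕ => (Nat.rec 0 (fun _ r => (max x.1 r + 1) ^ 2) x.2 : ℕ) :=
    Primrec.nat_rec' (f := fun x : ℕ × ℕ => x.2) (g := fun _ : ℕ × ℕ => 0)
      (h := fun (x : ℕ × ℕ) (y : ℕ × ℕ) => (max x.1 y.2 + 1) ^ 2) Primrec.snd (Primrec.const 0)
      (h1.comp ((Primrec.fst.comp Primrec.fst).pair (Primrec.snd.comp Primrec.snd)))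
  refine h2.of_eq fun x => ?_
  rcases x with ⟨c, n⟩
  simp only
  induction n with
  | zero => rfl
  | succ n ih => simp only [bd, ← ih]

theorem gM_prim : Primrec gM := by
  have h1 : Primrec fun y : ℕ × ℕ =>
      y.2 + 2 * bd (2 ^ (y.1 + 1)) (y.2 + y.1 + 2) * y.2 := by
    have h3 : Primrec fun y : ℕ × ℕ => y.2 + y.1 + 2 :=
      Primrec.nat_add.comp (Primrec.nat_add.comp Primrec.snd Primrec.fst) (Primrec.const 2)
    have h4 : Primrec fun y : ℕ × ℕ => 2 ^ (y.1 + 1) :=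
      primrec_pow.comp (Primrec.const 2) (Primrec.succ.comp Primrec.fst)
    exact Primrec.nat_add.comp Primrec.snd (Primrec.nat_mul.comp
      (Primrec.nat_mul.comp (Primrec.const 2) (bd_prim.comp h4 h3)) Primrec.snd)
  have h2 : Primrec fun n : ℕ =>
      (Nat.rec 1 (fun n r => r + 2 * bd (2 ^ (n + 1)) (r + n + 2) * r) n : ℕ) :=
    Primrec.nat_rec' (f := fun n : ℕ => n) (g := fun _ : ℕ => 1)
      (h := fun (_ : ℕ) (y : ℕ × ℕ) => y.2 + 2 * bd (2 ^ (y.1 + 1)) (y.2 + y.1 + 2) * y.2)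
      Primrec.id (Primrec.const 1) (h1.comp Primrec.snd)
  refine h2.of_eq fun n => ?_
  induction n with
  | zero => rfl
  | succ n ih => simp only [gM, ← ih]

theorem gK_prim : Primrec gK := by
  have h1 : Primrec fun y : ℕ × ℕ => 3 * gM y.1 + y.2 + gM (y.1 + 1) :=
    Primrec.nat_add.comp (Primrec.nat_add.comp (Primrec.nat_mul.comp (Primrec.const 3)
      (gM_prim.comp Primrec.fst)) Primrec.snd) (gM_prim.comp (Primrec.succ.comp Primrec.fst))
  have h2 : Primrec fun n : ℕ => (Nat.rec 0 (fun n r => 3 * gM n + r + gM (n + 1)) n : ℕ) :=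
    Primrec.nat_rec' (f := fun n : ℕ => n) (g := fun _ : ℕ => 0)
      (h := fun (_ : ℕ) (y : ℕ × ℕ) => 3 * gM y.1 + y.2 + gM (y.1 + 1)) Primrec.id
      (Primrec.const 0) (h1.comp Primrec.snd)
  refine h2.of_eq fun n => ?_
  induction n with
  | zero => rfl
  | succ n ih => simp only [gK, ← ih]

section general

variable {α : Type} [Primcodable α]

theorem comp_add {f g : α → ℕ} (hf : Computable f) (hg : Computable g) :
    Computable fun a => f a + g a :=
  Computable₂.comp (f := fun a b : ℕ => a + b) Primrec.nat_add.to_comp hf hg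

theorem comp_sub {f g : α → ℕ} (hf : Computable f) (hg : Computable g) :
    Computable fun a => f a - g a :=
  Computable₂.comp (f := fun a b : ℕ => a - b) Primrec.nat_sub.to_comp hf hg

theorem UD_lt {f g : α → ℕ} (hf : Computable f) (hg : Computable g) :
    UD fun _ a => f a < g a :=
  UD.of_comp (p := fun x : ℕ × ℕ => x.1 < x.2) Primrec.nat_lt (hf.pair hg)

theorem UD_Nx {p : (ℕ → Bool) → α → ℕ → Prop} (hp : UD fun B (x : α × ℕ) => p B x.1 x.2)
    {i j : α → ℕ} (hi : Computable i) (hj : Computable j) :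
    UD fun B a => Nx (p B a) (i a) (j a) := by
  refine UD.and (UD_lt hi hj) (UD.and ?_ ?_)
  · exact hp.comp (f := fun a => (a, j a)) (Computable.id.pair hj)
  · have h1 : UD fun B a => ∀ k < j a, i a < k → ¬ p B a k := by
      refine UD.all_lt (p := fun B a k => i a < k → ¬ p B a k) (UD.imp ?_ hp.not) hj
      exact UD_lt (hi.comp Computable.fst) Computable.snd
    refine h1.of_eq fun B a => ?_
    exact ⟨fun h k hk hk' => h k hk' hk, fun h k hk hk' => h k hk' hk⟩

end general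

theorem seg_eq (B : ℕ → Bool) (n i m : ℕ) : seg (rown B) n i m = (List.range m).map fun t =>
    val ((List.range n).map fun b =>
      (pre B ((i + m + n + 1) * (i + m + n + 1))).getD (Nat.pair (i + t) b) false) := by
  unfold seg dg pre
  refine List.map_congr_left fun t ht => ?_
  rw [List.mem_range] at ht
  congr 1
  refine List.map_congr_left fun b hb => ?_
  rw [List.mem_range] at hb
  have h1 := Nat.pair_lt_max_add_one_sq (i + t) b
  have h2 : max (i + t) b + 1 ≤ i + m + n + 1 := by omega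
  have h3 : (max (i + t) b + 1) ^ 2 ≤ (i + m + n + 1) * (i + m + n + 1) := by
    rw [sq]
    exact Nat.mul_le_mul h2 h2
  have h4 := pre_getD B ((i + m + n + 1) * (i + m + n + 1)) (Nat.pair (i + t) b) false
    (h1.trans_le h3)
  unfold pre at h4
  rw [h4]
  rfl

theorem lab_UF : UF fun B (y : ℕ × ℕ × ℕ) => lab (rown B) y.1 y.2.1 y.2.2 := by
  have hm : Primrec fun y : List Bool × (ℕ × ℕ × ℕ) => y.2.2.2 - y.2.2.1 + y.2.1 + 1 := by
    have h2 : Primrec fun y : List Bool × (ℕ × ℕ × ℕ) => y.2.2 := Primrec.snd.comp Primrec.snd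
    exact Primrec.succ.comp (Primrec.nat_add.comp (Primrec.nat_sub.comp (Primrec.snd.comp h2)
      (Primrec.fst.comp h2)) (Primrec.fst.comp Primrec.snd))
  have hf : Primrec fun y : List Bool × (ℕ × ℕ × ℕ) =>
      encode ((List.range (y.2.2.2 - y.2.2.1 + y.2.1 + 1)).map fun t =>
        val ((List.range y.2.1).map fun b => y.1.getD (Nat.pair (y.2.2.1 + t) b) false)) := by
    refine Primrec.encode.comp (Primrec.list_map (Primrec.list_range.comp hm) (val_prim.comp ?_))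
    refine Primrec.list_map (Primrec.list_range.comp
      (Primrec.fst.comp (Primrec.snd.comp Primrec.fst))) ?_
    exact (Primrec.list_getD false).comp (Primrec.fst.comp (Primrec.fst.comp Primrec.fst))
      (Primrec₂.natPair.comp (Primrec.nat_add.comp (Primrec.fst.comp (Primrec.snd.comp
        (Primrec.snd.comp (Primrec.fst.comp Primrec.fst)))) (Primrec.snd.comp Primrec.fst))
        Primrec.snd)
  have hu : Computable fun y : ℕ × ℕ × ℕ =>
      (y.2.1 + (y.2.2 - y.2.1 + y.1 + 1) + y.1 + 1) *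
        (y.2.1 + (y.2.2 - y.2.1 + y.1 + 1) + y.1 + 1) := by
    have h2 : Primrec fun y : ℕ × ℕ × ℕ => y.2.1 := Primrec.fst.comp Primrec.snd
    have h3 : Primrec fun y : ℕ × ℕ × ℕ => y.2.2 := Primrec.snd.comp Primrec.snd
    have h4 : Primrec fun y : ℕ × ℕ × ℕ => y.2.1 + (y.2.2 - y.2.1 + y.1 + 1) + y.1 + 1 :=
      Primrec.succ.comp (Primrec.nat_add.comp (Primrec.nat_add.comp h2 (Primrec.succ.comp
        (Primrec.nat_add.comp (Primrec.nat_sub.comp h3 h2) Primrec.fst))) Primrec.fst)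
    exact (Primrec.nat_mul.comp h4 h4).to_comp
  have h1 := UF.of_pre hf hu
  refine U1.of_eq h1 fun B y => ?_
  simp only [lab, seg_eq]

theorem dg_UF : UF fun B (y : ℕ × ℕ) => dg (rown B) y.1 y.2 := by
  have h1 : UF fun B (n : ℕ) => val (pre B n) :=
    UF.of_pre (f := fun y : List Bool × ℕ => val y.1) (val_prim.comp Primrec.fst) Computable.id
  have h2 := UF.sub (F := fun B t => rown B t) TP.rown_UD h1
  exact h2.comp (g := fun y : ℕ × ℕ => (y.2, y.1)) (Computable.snd.pair Computable.fst)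

theorem UF_rel {α : Type} [Primcodable α] {f g : (ℕ → Bool) → α → ℕ} (hf : UF f) (hg : UF g)
    {r : ℕ → ℕ → Prop} (hr : PrimrecPred fun x : ℕ × ℕ => r x.1 x.2) :
    UD fun B a => r (f B a) (g B a) := by
  refine UF.pred (p := fun B (a : α) (v : ℕ) => r v (g B a)) hf ?_
  refine UF.pred (α := α × ℕ) (p := fun _ x w => r x.2 w) (hg.comp Computable.fst) ?_
  exact (UD.of_prim hr).comp (f := fun x : (α × ℕ) × ℕ => (x.1.2, x.2))
    ((Computable.snd.comp Computable.fst).pair Computable.snd)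

theorem labRel_UD {r : ℕ → ℕ → Prop} (hr : PrimrecPred fun x : ℕ × ℕ => r x.1 x.2) :
    UD fun B (y : (ℕ × ℕ × ℕ) × (ℕ × ℕ × ℕ)) =>
      r (lab (rown B) y.1.1 y.1.2.1 y.1.2.2) (lab (rown B) y.2.1 y.2.2.1 y.2.2.2) :=
  UF_rel (lab_UF.comp Computable.fst) (lab_UF.comp Computable.snd) hr

theorem dgEq_UD : UD fun B (y : (ℕ × ℕ) × (ℕ × ℕ)) =>
    dg (rown B) y.1.1 y.1.2 = dg (rown B) y.2.1 y.2.2 :=
  UF_rel (r := fun a b => a = b) (dg_UF.comp Computable.fst) (dg_UF.comp Computable.snd)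
    (Primrec.eq.comp Primrec.fst Primrec.snd)

theorem nM_UD : UD fun W (x : ℕ × ℕ) => nM (rown (evn W)) (x.1 + 1) (gM x.1) (rd W) x.2 := by
  refine UD.and (UD.rd.comp Computable.snd) ?_
  have hg : Computable fun x : ℕ × ℕ => gM x.1 := gM_prim.to_comp.comp Computable.fst
  have hb : ∀ {α : Type} [Primcodable α] {f g : α → ℕ}, Computable f → Computable g →
      Computable fun a => f a + g a + 1 := fun hf hg => Computable.succ.comp (comp_add hf hg)
  -- the variables of the innermost predicate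
  have hx : Computable fun y : (((ℕ × ℕ) × ℕ) × ℕ) × ℕ => y.1.1.1 :=
    Computable.fst.comp (Computable.fst.comp Computable.fst)
  have hj : Computable fun y : (((ℕ × ℕ) × ℕ) × ℕ) × ℕ => y.1.1.2 :=
    Computable.snd.comp (Computable.fst.comp Computable.fst)
  have hk : Computable fun y : (((ℕ × ℕ) × ℕ) × ℕ) × ℕ => y.1.2 :=
    Computable.snd.comp Computable.fst
  have hl : Computable fun y : (((ℕ × ℕ) × ℕ) × ℕ) × ℕ => y.2 := Computable.snd
  have hn : Computable fun y : (((ℕ × ℕ) × ℕ) × ℕ) × ℕ => y.1.1.1.1 + 1 :=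
    Computable.succ.comp (Computable.fst.comp hx)
  have hi : Computable fun y : (((ℕ × ℕ) × ℕ) × ℕ) × ℕ => y.1.1.1.2 := Computable.snd.comp hx
  have hrd : UD fun W (z : ((((ℕ × ℕ) × ℕ) × ℕ) × ℕ) × ℕ) => rd W z.2 :=
    UD.rd.comp Computable.snd
  have hlab : ∀ {r : ℕ → ℕ → Prop}, (PrimrecPred fun x : ℕ × ℕ => r x.1 x.2) →
      ∀ {a b a' b' : (((ℕ × ℕ) × ℕ) × ℕ) × ℕ → ℕ}, Computable a → Computable b →
      Computable a' → Computable b' →
      UD fun W (y : (((ℕ × ℕ) × ℕ) × ℕ) × ℕ) =>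
        r (lab (rown (evn W)) (y.1.1.1.1 + 1) (a y) (b y)) (lab (rown (evn W)) (y.1.1.1.1 + 1) (a' y) (b' y)) := by
    intro r hr a b a' b' ha hb ha' hb'
    exact (UD.evn (labRel_UD hr)).comp (f := fun y : (((ℕ × ℕ) × ℕ) × ℕ) × ℕ =>
      ((y.1.1.1.1 + 1, (a y, b y)), (y.1.1.1.1 + 1, (a' y, b' y))))
      ((hn.pair (ha.pair hb)).pair (hn.pair (ha'.pair hb')))
  refine UD.all_lt (α := ℕ × ℕ) (p := fun W x j => ∀ k < j + gM x.1 + 1, ∀ l < k + gM x.1 + 1,
    Nx (rd W) x.2 j → Nx (rd W) j k → Nx (rd W) k l →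
    lab (rown (evn W)) (x.1 + 1) x.2 j = lab (rown (evn W)) (x.1 + 1) j k ∨
      (lab (rown (evn W)) (x.1 + 1) x.2 j < lab (rown (evn W)) (x.1 + 1) j k ∧
        lab (rown (evn W)) (x.1 + 1) k l < lab (rown (evn W)) (x.1 + 1) j k))
    (f := fun x => x.2 + gM x.1 + 1) ?_ (hb Computable.snd hg)
  refine UD.all_lt (α := (ℕ × ℕ) × ℕ) (p := fun W y k => ∀ l < k + gM y.1.1 + 1,
    Nx (rd W) y.1.2 y.2 → Nx (rd W) y.2 k → Nx (rd W) k l →
    lab (rown (evn W)) (y.1.1 + 1) y.1.2 y.2 = lab (rown (evn W)) (y.1.1 + 1) y.2 k ∨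
      (lab (rown (evn W)) (y.1.1 + 1) y.1.2 y.2 < lab (rown (evn W)) (y.1.1 + 1) y.2 k ∧
        lab (rown (evn W)) (y.1.1 + 1) k l < lab (rown (evn W)) (y.1.1 + 1) y.2 k))
    (f := fun y => y.2 + gM y.1.1 + 1) ?_ (hb Computable.snd (hg.comp Computable.fst))
  refine UD.all_lt (α := ((ℕ × ℕ) × ℕ) × ℕ) (p := fun W z l =>
    Nx (rd W) z.1.1.2 z.1.2 → Nx (rd W) z.1.2 z.2 → Nx (rd W) z.2 l →
    lab (rown (evn W)) (z.1.1.1 + 1) z.1.1.2 z.1.2 = lab (rown (evn W)) (z.1.1.1 + 1) z.1.2 z.2 ∨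
      (lab (rown (evn W)) (z.1.1.1 + 1) z.1.1.2 z.1.2 < lab (rown (evn W)) (z.1.1.1 + 1) z.1.2 z.2 ∧
        lab (rown (evn W)) (z.1.1.1 + 1) z.2 l < lab (rown (evn W)) (z.1.1.1 + 1) z.1.2 z.2))
    (f := fun z => z.2 + gM z.1.1.1 + 1) ?_
    (hb Computable.snd (hg.comp (Computable.fst.comp Computable.fst)))
  refine UD.imp ?_ (UD.imp ?_ (UD.imp ?_ (UD.or ?_ (UD.and ?_ ?_))))
  · exact UD_Nx (p := fun W (_ : (((ℕ × ℕ) × ℕ) × ℕ) × ℕ) => rd W) hrd hi hj
  · exact UD_Nx (p := fun W (_ : (((ℕ × ℕ) × ℕ) × ℕ) × ℕ) => rd W) hrd hj hk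
  · exact UD_Nx (p := fun W (_ : (((ℕ × ℕ) × ℕ) × ℕ) × ℕ) => rd W) hrd hk hl
  · exact hlab (r := fun a b => a = b) (Primrec.eq.comp Primrec.fst Primrec.snd) hi hj hj hk
  · exact hlab (r := fun a b => a < b) (Primrec.nat_lt.comp Primrec.fst Primrec.snd) hi hj hj hk
  · exact hlab (r := fun a b => a < b) (Primrec.nat_lt.comp Primrec.fst Primrec.snd) hk hl hj hk

theorem M_UD : UD fun B (x : ℕ × ℕ) => M (rown B) x.1 x.2 := by
  refine UD.iter' (Y := fun B n j => M (rown B) n j) (S := fun W (x : ℕ × ℕ) =>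
    nM (rown (evn W)) (x.1 + 1) (gM x.1) (rd W) x.2) ?_ nM_UD ?_
  · exact UD.of_prim (PP.const True)
  · intro B n j
    simp only [evn_join, rd_join]
    exact Iff.rfl

theorem nK_UD : UD fun W (x : ℕ × ℕ) => nK (rown (evn W)) (x.1 + 1) (gM x.1) (M (rown (evn W)) x.1)
    (M (rown (evn W)) (x.1 + 1)) (rd W) x.2 := by
  have hg : Computable fun x : ℕ × ℕ => gM x.1 := gM_prim.to_comp.comp Computable.fst
  have hb : ∀ {α : Type} [Primcodable α] {f g : α → ℕ}, Computable f → Computable g →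
      Computable fun a => f a + g a + 1 := fun hf hg => Computable.succ.comp (comp_add hf hg)
  have hM : ∀ {α : Type} [Primcodable α] {f g : α → ℕ}, Computable f → Computable g →
      UD fun W a => M (rown (evn W)) (f a) (g a) := fun {α} _ {f g} hf hg =>
    (UD.evn M_UD).comp (f := fun a => (f a, g a)) (hf.pair hg)
  refine UD.or (UD.and (hM Computable.fst Computable.snd) (UD.and
    (hM (Computable.succ.comp Computable.fst) Computable.snd).not ?_)) (UD.and
      (UD.rd.comp Computable.snd) ?_)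
  · refine UD.all_lt (α := ℕ × ℕ) (p := fun W x j => Nx (M (rown (evn W)) x.1) x.2 j →
      M (rown (evn W)) (x.1 + 1) j) (f := fun x => x.2 + gM x.1 + 1) (UD.imp ?_ ?_) (hb Computable.snd hg)
    · exact UD_Nx (p := fun W (x : (ℕ × ℕ) × ℕ) => M (rown (evn W)) x.1.1)
        (hM (Computable.fst.comp (Computable.fst.comp Computable.fst)) Computable.snd)
        (Computable.snd.comp Computable.fst) Computable.snd
    · exact hM (Computable.succ.comp (Computable.fst.comp Computable.fst)) Computable.snd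
  · refine UD.all_lt (α := ℕ × ℕ) (p := fun W x j => ∀ k < j + gM x.1 + 1,
      Nx (M (rown (evn W)) x.1) x.2 j → Nx (M (rown (evn W)) x.1) j k →
        M (rown (evn W)) (x.1 + 1) j ∧ M (rown (evn W)) (x.1 + 1) k ∧
          ∀ t < x.1 + 1, dg (rown (evn W)) (x.1 + 1) (x.2 + t) =
            dg (rown (evn W)) (x.1 + 1) (x.2 + (k - j) + t))
      (f := fun x => x.2 + gM x.1 + 1) ?_ (hb Computable.snd hg)
    refine UD.all_lt (α := (ℕ × ℕ) × ℕ) (p := fun W y k =>
      Nx (M (rown (evn W)) y.1.1) y.1.2 y.2 → Nx (M (rown (evn W)) y.1.1) y.2 k →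
        M (rown (evn W)) (y.1.1 + 1) y.2 ∧ M (rown (evn W)) (y.1.1 + 1) k ∧
          ∀ t < y.1.1 + 1, dg (rown (evn W)) (y.1.1 + 1) (y.1.2 + t) =
            dg (rown (evn W)) (y.1.1 + 1) (y.1.2 + (k - y.2) + t))
      (f := fun y => y.2 + gM y.1.1 + 1) ?_ (hb Computable.snd (hg.comp Computable.fst))
    have hn : Computable fun z : ((ℕ × ℕ) × ℕ) × ℕ => z.1.1.1 :=
      Computable.fst.comp (Computable.fst.comp Computable.fst)
    have hi : Computable fun z : ((ℕ × ℕ) × ℕ) × ℕ => z.1.1.2 :=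
      Computable.snd.comp (Computable.fst.comp Computable.fst)
    have hj : Computable fun z : ((ℕ × ℕ) × ℕ) × ℕ => z.1.2 := Computable.snd.comp Computable.fst
    have hk : Computable fun z : ((ℕ × ℕ) × ℕ) × ℕ => z.2 := Computable.snd
    refine UD.imp ?_ (UD.imp ?_ (UD.and ?_ (UD.and ?_ ?_)))
    · exact UD_Nx (p := fun W (z : ((ℕ × ℕ) × ℕ) × ℕ) => M (rown (evn W)) z.1.1.1)
        (hM (hn.comp Computable.fst) Computable.snd) hi hj
    · exact UD_Nx (p := fun W (z : ((ℕ × ℕ) × ℕ) × ℕ) => M (rown (evn W)) z.1.1.1)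
        (hM (hn.comp Computable.fst) Computable.snd) hj hk
    · exact hM (Computable.succ.comp hn) hj
    · exact hM (Computable.succ.comp hn) hk
    · refine UD.all_lt (α := ((ℕ × ℕ) × ℕ) × ℕ) (p := fun W z t =>
        dg (rown (evn W)) (z.1.1.1 + 1) (z.1.1.2 + t) =
          dg (rown (evn W)) (z.1.1.1 + 1) (z.1.1.2 + (z.2 - z.1.2) + t)) (f := fun z => z.1.1.1 + 1) ?_
        (Computable.succ.comp hn)
      refine (UD.evn dgEq_UD).comp (f := fun z : (((ℕ × ℕ) × ℕ) × ℕ) × ℕ =>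
        ((z.1.1.1.1 + 1, z.1.1.1.2 + z.2),
          (z.1.1.1.1 + 1, z.1.1.1.2 + (z.1.2 - z.1.1.2) + z.2))) ?_
      have hi' := hi.comp (Computable.fst (α := ((ℕ × ℕ) × ℕ) × ℕ) (β := ℕ))
      have hn' := Computable.succ.comp (hn.comp (Computable.fst (α := ((ℕ × ℕ) × ℕ) × ℕ) (β := ℕ)))
      exact (hn'.pair (comp_add hi' Computable.snd)).pair (hn'.pair (comp_add (comp_add hi'
        (comp_sub (hk.comp Computable.fst) (hj.comp Computable.fst))) Computable.snd))

theorem K_UD : UD fun B (x : ℕ × ℕ) => K (rown B) x.1 x.2 := by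
  refine UD.iter' (Y := fun B n j => K (rown B) n j) (S := fun W (x : ℕ × ℕ) =>
    nK (rown (evn W)) (x.1 + 1) (gM x.1) (M (rown (evn W)) x.1) (M (rown (evn W)) (x.1 + 1)) (rd W) x.2) ?_ nK_UD ?_
  · exact UD.of_prim (PP.const True)
  · intro B n j
    simp only [evn_join, rd_join]
    exact Iff.rfl

theorem Ct_UD : UD fun B (x : ℕ × ℕ) => Ct (rown B) x.1 x.2 := by
  refine UD.or K_UD ?_
  have h1 : UD fun B (x : ℕ × ℕ) => ¬ rown B (x.2 + 1) 0 = true :=
    (TP.rown_UD.comp (f := fun x : ℕ × ℕ => (x.2 + 1, 0))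
      ((Computable.succ.comp Computable.snd).pair (Computable.const 0))).not
  exact h1.of_eq fun B x => by rw [Bool.not_eq_true]

theorem Dp_UD : UD fun B (x : ℕ × ℕ) => Dp (rown B) x.1 x.2 := by
  refine UD.and Ct_UD ?_
  refine UD.all_lt (α := ℕ × ℕ) (p := fun B x j => ¬ Ct (rown B) x.1 j) (f := fun x => x.2)
    (UD.not ?_) Computable.snd
  exact Ct_UD.comp (f := fun y : (ℕ × ℕ) × ℕ => (y.1.1, y.2))
    ((Computable.fst.comp Computable.fst).pair Computable.snd)

end Pool.Agent.V7H75.TG
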