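import Pool.Agent.V7H75.TG.Comp

set_option autoImplicit false

/-!
The general construction: solutions to Post's problem and invariance.
-/

namespace Pool.Agent.V7H75.TG

open Encodable Pool.Agent.Helper227 Pool.Agent.V7H75.HF
open Pool.Agent.H548R2.Post (hlt En ext En_mono En_congr mem_WE_iff primrec_pow)
open Pool.Agent.V7H75.TP (Str SF Ap el el_eta le_el ev_all pre_eq_of lhi llv lf lk lL mk lhi_mk
  llv_mk lf_mk lk_mk lL_mk mk_eta lhi_le lhi_comp llv_comp lf_comp lk_comp lL_comp c_add c_mul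
  c_pow c_pair el_comp rown rown_UD fst_prim sec_prim)

variable {G P : ℕ → Str → Str} {S : ℕ → Str → ℕ → Prop} {b pb : ℕ → ℕ}

theorem Fine.up {X : ℕ → Bool} {n0 N : ℕ} {ρ : ℕ → ℕ} {R : ℕ → ℕ → Bool} {Q : ℕ × ℕ × ℕ → Prop}
    (hF : Fine G P S b pb X n0 ρ R Q) (hN : n0 ≤ N) :
    Fine G P S b pb X N ρ R (fun a => Q a ∧ N ≤ a.1) where
  ap n hn := hF.ap n (hN.trans hn)
  back n hn := hF.back n (hN.trans hn)
  le n hn := hF.le n (hN.trans hn)
  si := SI.and hF.si (SI.of_prim (Primrec.nat_le.comp (Primrec.const N) Primrec.fst))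
  ex n hn := by
    obtain ⟨T, hT⟩ := hF.ex n (hN.trans hn)
    exact ⟨T, hT, hn⟩
  ok n T d h := ⟨h.2, (hF.ok n T d h.1).2⟩

/-- the rows of the roots -/
def col (n0 : ℕ) (R : ℕ → ℕ → Bool) : ℕ → Bool :=
  fun m => decide (n0 ≤ m.unpair.1) && R m.unpair.1 m.unpair.2

theorem rown_col {n0 : ℕ} {R : ℕ → ℕ → Bool} {n : ℕ} (hn : n0 ≤ n) : rown (col n0 R) n = R n := by
  funext a
  simp [rown, col, hn]

section rel

variable {X : ℕ → Bool} {n0 : ℕ} {ρ : ℕ → ℕ} {R : ℕ → ℕ → Bool} {Q : ℕ × ℕ × ℕ → Prop}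
  (hG : ∀ d, SF (G d)) (hP : ∀ f, SF (P f)) (cP : Computable fun y : ℕ × Str => P y.1 y.2)
  (cb : Computable b) (cpb : Computable pb) (cG : Computable fun y : ℕ × Str => G y.1 y.2)
  (cS : UD fun _ (y : (ℕ × Str) × ℕ) => S y.1.1 y.1.2 y.2)
  (hF : Fine G P S b pb X n0 ρ R Q)

theorem zi_prim : Primrec fun z : ℕ => z.unpair.1.unpair.1 := fst_prim.comp fst_prim
theorem zp_prim : Primrec fun z : ℕ => z.unpair.1.unpair.2 := sec_prim.comp fst_prim
theorem zx_prim : Primrec fun z : ℕ => z.unpair.2 := sec_prim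
theorem zn_comp : Computable fun z : ℕ => llv z.unpair.1.unpair.1 :=
  llv_comp.comp zi_prim.to_comp

include hG cG hF in
theorem col_le : TLe (col n0 R) X := by
  rw [tLe_iff_SI]
  -- the digits
  have h1 : UD fun B (y : (ℕ × Bool) × (ℕ × ℕ)) => y.1.1.unpair.2 <
      (G y.2.1 (pre B y.2.2)).length ∧
      (G y.2.1 (pre B y.2.2)).getD y.1.1.unpair.2 false = y.1.2 := by
    refine TP.UD.of_preC (P := fun w : List Bool × ((ℕ × Bool) × (ℕ × ℕ)) =>
      w.2.1.1.unpair.2 < (G w.2.2.1 w.1).length ∧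
      (G w.2.2.1 w.1).getD w.2.1.1.unpair.2 false = w.2.1.2) ?_
      (Computable.snd.comp Computable.snd)
    have c1 : Computable fun w : List Bool × ((ℕ × Bool) × (ℕ × ℕ)) => w.2.1.1.unpair.2 :=
      (sec_prim.comp (Primrec.fst.comp (Primrec.fst.comp Primrec.snd))).to_comp
    have c2 : Computable fun w : List Bool × ((ℕ × Bool) × (ℕ × ℕ)) => G w.2.2.1 w.1 :=
      cG.comp (g := fun w : List Bool × ((ℕ × Bool) × (ℕ × ℕ)) => ((w.2.2.1, w.1) : ℕ × Str))
        ((Computable.fst.comp (Computable.snd.comp Computable.snd)).pair Computable.fst)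
    refine UD.and (TP.UD.lt c1 (Computable.list_length.comp c2)) ?_
    exact UD.of_comp (p := fun x : Bool × Bool => x.1 = x.2) Primrec.eq
      ((Computable₂.comp (f := fun (l : List Bool) (n : ℕ) => l.getD n false)
        (Primrec.list_getD false).to_comp c2 c1).pair
        (Computable.snd.comp (Computable.fst.comp Computable.snd)))
  have h2 : SI X fun y : ℕ × Bool => ∃ T d t, Q (y.1.unpair.1, T, d) ∧
      (y.1.unpair.2 < (G d (pre X t)).length ∧
        (G d (pre X t)).getD y.1.unpair.2 false = y.2) := by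
    refine SI.ex (p := fun (y : ℕ × Bool) T => ∃ d t, Q (y.1.unpair.1, T, d) ∧
      (y.1.unpair.2 < (G d (pre X t)).length ∧
        (G d (pre X t)).getD y.1.unpair.2 false = y.2)) ?_
    refine SI.ex (p := fun (y : (ℕ × Bool) × ℕ) d => ∃ t, Q (y.1.1.unpair.1, y.2, d) ∧
      (y.1.1.unpair.2 < (G d (pre X t)).length ∧
        (G d (pre X t)).getD y.1.1.unpair.2 false = y.1.2)) ?_
    refine SI.ex (p := fun (y : ((ℕ × Bool) × ℕ) × ℕ) t => Q (y.1.1.1.unpair.1, y.1.2, y.2) ∧
      (y.1.1.1.unpair.2 < (G y.2 (pre X t)).length ∧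
        (G y.2 (pre X t)).getD y.1.1.1.unpair.2 false = y.1.1.2)) (SI.and ?_ ?_)
    · exact hF.si.comp (f := fun y : (((ℕ × Bool) × ℕ) × ℕ) × ℕ =>
        (y.1.1.1.1.unpair.1, (y.1.1.2, y.1.2)))
        ((fst_prim.comp (Primrec.fst.comp (Primrec.fst.comp (Primrec.fst.comp Primrec.fst)))).pair
          ((Primrec.snd.comp (Primrec.fst.comp Primrec.fst)).pair
            (Primrec.snd.comp Primrec.fst)))
    · exact (h1.pos.si X).comp (f := fun y : (((ℕ × Bool) × ℕ) × ℕ) × ℕ =>
        (y.1.1.1, (y.1.2, y.2)))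
        ((Primrec.fst.comp (Primrec.fst.comp Primrec.fst)).pair
          ((Primrec.snd.comp Primrec.fst).pair Primrec.snd))
  have h3 : PrimrecPred fun y : ℕ × Bool => y.1.unpair.1 < n0 :=
    Primrec.nat_lt.comp (fst_prim.comp Primrec.fst) (Primrec.const n0)
  have h4 : PrimrecPred fun y : ℕ × Bool => y.2 = false :=
    Primrec.eq.comp Primrec.snd (Primrec.const false)
  refine (SI.or (SI.of_prim (h3.and h4)) h2).of_eq fun y => ?_
  unfold col
  by_cases hn : n0 ≤ y.1.unpair.1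
  · have hn' : ¬ y.1.unpair.1 < n0 := not_lt.2 hn
    have hap := hF.ap _ hn
    simp only [hn', hn, false_and, false_or, decide_true, Bool.true_and]
    constructor
    · rintro ⟨T, d, t, hQ, ht1, ht2⟩
      obtain ⟨-, rfl, -⟩ := hF.ok _ _ _ hQ
      rw [← ht2]
      have h6 := pre_getD (R y.1.unpair.1) _ y.1.unpair.2 false ht1
      rw [← hap.eq_pre (hG _) t] at h6
      exact h6.symm
    · intro h6
      obtain ⟨T, hT⟩ := hF.ex _ hn
      obtain ⟨t, ht⟩ := hap.len (hG _) (y.1.unpair.2 + 1)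
      have ht' : y.1.unpair.2 < (G (ρ y.1.unpair.1) (pre X t)).length := ht t le_rfl
      refine ⟨T, _, t, hT, ht', ?_⟩
      rw [← h6]
      have h7 := pre_getD (R y.1.unpair.1) _ y.1.unpair.2 false ht'
      rw [← hap.eq_pre (hG _) t] at h7
      exact h7
  · have hn' : y.1.unpair.1 < n0 := not_le.1 hn
    simp only [hn', hn, true_and, decide_false, Bool.false_and]
    constructor
    · rintro (h5 | ⟨T, d, t, hQ, -⟩)
      · exact h5.symm
      · exact absurd (hF.ok _ _ _ hQ).1 hn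
    · exact fun h5 => Or.inl h5.symm

include hF in
theorem own_si : SI X fun z : ℕ => own n0 ρ z := by
  have h1 : SI X fun z : ℕ × ℕ => ∃ T, Q (z.1, T, z.2) := by
    refine SI.ex (p := fun (z : ℕ × ℕ) T => Q (z.1, T, z.2)) ?_
    exact hF.si.comp (f := fun y : (ℕ × ℕ) × ℕ => (y.1.1, (y.2, y.1.2)))
      ((Primrec.fst.comp Primrec.fst).pair (Primrec.snd.pair (Primrec.snd.comp Primrec.fst)))
  refine (h1.comp_computable (f := fun z : ℕ => (llv z.unpair.1.unpair.1, z.unpair.1.unpair.2))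
    (zn_comp.pair zp_prim.to_comp)).of_eq fun z => ?_
  exact own_iff hF

include hG cP cb cpb cG cS hF in
/-- off the roots, the set is decidable in the oracle -/
theorem off_si (hSb : ∀ n σ d, S n σ d → d ≤ b n) :
    SI X fun y : ℕ × Bool => ¬ own n0 ρ y.1 ∧ V G P S b pb X y.1 = y.2 := by
  have hfin := finite_low (P := P) (pb := pb) hG hSb X n0
  have cF : PrimrecPred fun z : ℕ => z ∈ hfin.toFinset := by
    refine (PP.ex_mem (α := ℕ) (f := fun _ => hfin.toFinset.toList) (p := fun z b => b = z)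
      (Primrec.eq.comp Primrec.snd Primrec.fst) (Primrec.const _)).of_eq fun z => by simp
  have clow : UD fun (_ : ℕ → Bool) (z : ℕ) => llv z.unpair.1.unpair.1 < n0 :=
    TP.UD.lt zn_comp (Computable.const n0)
  have s1 : SI X fun y : ℕ × Bool => llv y.1.unpair.1.unpair.1 < n0 ∧
      ((y.1 ∈ hfin.toFinset ∧ y.2 = true) ∨ (¬ y.1 ∈ hfin.toFinset ∧ y.2 = false)) := by
    refine SI.and ((clow.comp Computable.fst).pos.si _) (SI.of_prim ?_)
    exact PrimrecPred.or (PrimrecPred.and (cF.comp Primrec.fst)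
      (Primrec.eq.comp Primrec.snd (Primrec.const true)))
      (PrimrecPred.and (cF.not.comp Primrec.fst) (Primrec.eq.comp Primrec.snd (Primrec.const false)))
  -- another depth
  have hne : PrimrecPred fun y : (ℕ × ℕ) × (ℕ × ℕ) => y.1.2 ≠ y.2.2 :=
    (Primrec.eq.comp (Primrec.snd.comp Primrec.fst) (Primrec.snd.comp Primrec.snd)).not
  have h2 : SI X fun z : ℕ × ℕ => ∃ T d', Q (z.1, T, d') ∧ z.2 ≠ d' := by
    refine SI.ex (p := fun (z : ℕ × ℕ) T => ∃ d', Q (z.1, T, d') ∧ z.2 ≠ d') ?_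
    refine SI.ex (p := fun (z : (ℕ × ℕ) × ℕ) d' => Q (z.1.1, z.2, d') ∧ z.1.2 ≠ d')
      (SI.and ?_ (SI.of_prim ?_))
    · exact hF.si.comp (f := fun y : ((ℕ × ℕ) × ℕ) × ℕ => (y.1.1.1, (y.1.2, y.2)))
        ((Primrec.fst.comp (Primrec.fst.comp Primrec.fst)).pair
          ((Primrec.snd.comp Primrec.fst).pair Primrec.snd))
    · exact hne.comp (f := fun y : ((ℕ × ℕ) × ℕ) × ℕ => (y.1.1, (y.1.2, y.2)))
        ((Primrec.fst.comp Primrec.fst).pair ((Primrec.snd.comp Primrec.fst).pair Primrec.snd))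
  have s2 : SI X fun y : ℕ × Bool => (n0 ≤ llv y.1.unpair.1.unpair.1 ∧
      y.1.unpair.1.unpair.2 ≠ ρ (llv y.1.unpair.1.unpair.1)) ∧
      (V G P S b pb X y.1 = true ∧ y.2 = true) := by
    refine SI.and ?_ (SI.and (((V_U1 cP cb cpb cG cS).si X).comp Primrec.fst)
      (SI.of_prim (Primrec.eq.comp Primrec.snd (Primrec.const true))))
    refine (h2.comp_computable (f := fun y : ℕ × Bool =>
      (llv y.1.unpair.1.unpair.1, y.1.unpair.1.unpair.2))
      ((zn_comp.comp Computable.fst).pair (zp_prim.to_comp.comp Computable.fst))).of_eq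
        fun y => ?_
    exact oth_iff hF
  -- negative facts
  have h3 : SI X fun z : ℕ × ℕ × ℕ => ∃ T d', Q (llv z.1, T, d') ∧ z.2.1 ≠ d' ∧ ∀ t < T,
      ∀ s < (G z.2.1 (pre X t)).length + 1, ¬ (S (llv z.1) (pre X t) z.2.1 ∧
        Dec P b pb z.1 z.2.2 s (ext (G z.2.1 (pre X t)))) := by
    refine SI.ex (p := fun (z : ℕ × ℕ × ℕ) T => ∃ d', Q (llv z.1, T, d') ∧ z.2.1 ≠ d' ∧ ∀ t < T,
      ∀ s < (G z.2.1 (pre X t)).length + 1, ¬ (S (llv z.1) (pre X t) z.2.1 ∧
        Dec P b pb z.1 z.2.2 s (ext (G z.2.1 (pre X t))))) ?_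
    refine SI.ex (p := fun (z : (ℕ × ℕ × ℕ) × ℕ) d' => Q (llv z.1.1, z.2, d') ∧ z.1.2.1 ≠ d' ∧
      ∀ t < z.2, ∀ s < (G z.1.2.1 (pre X t)).length + 1, ¬ (S (llv z.1.1) (pre X t) z.1.2.1 ∧
        Dec P b pb z.1.1 z.1.2.2 s (ext (G z.1.2.1 (pre X t))))) (SI.and ?_ (SI.and ?_ ?_))
    · exact hF.si.comp_computable (f := fun y : ((ℕ × ℕ × ℕ) × ℕ) × ℕ =>
        (llv y.1.1.1, (y.1.2, y.2)))
        ((llv_comp.comp (Computable.fst.comp (Computable.fst.comp Computable.fst))).pair
          ((Computable.snd.comp Computable.fst).pair Computable.snd))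
    · exact SI.of_prim (Primrec.eq.comp (Primrec.fst.comp (Primrec.snd.comp (Primrec.fst.comp
        Primrec.fst))) Primrec.snd).not
    · -- a bounded quantifier
      have h4 : UD fun B (w : ((ℕ × ℕ × ℕ) × ℕ)) => ∀ s < w.2 + 1,
          ¬ (S (llv w.1.1) (pre B w.2) w.1.2.1 ∧ s ≤ (G w.1.2.1 (pre B w.2)).length ∧
            Dec P b pb w.1.1 w.1.2.2 s (ext (G w.1.2.1 (pre B w.2)))) := by
        refine UD.all_lt (p := fun B (w : (ℕ × ℕ × ℕ) × ℕ) s =>
          ¬ (S (llv w.1.1) (pre B w.2) w.1.2.1 ∧ s ≤ (G w.1.2.1 (pre B w.2)).length ∧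
            Dec P b pb w.1.1 w.1.2.2 s (ext (G w.1.2.1 (pre B w.2)))))
          (f := fun w => w.2 + 1) (UD.not ?_) (Computable.succ.comp Computable.snd)
        exact (St_UD cP cb cpb cG cS).comp (f := fun y : ((ℕ × ℕ × ℕ) × ℕ) × ℕ =>
          (y.1.1, (y.1.2, y.2)))
          ((Computable.fst.comp Computable.fst).pair ((Computable.snd.comp Computable.fst).pair
            Computable.snd))
      have h5 : UD fun B (y : (((ℕ × ℕ × ℕ) × ℕ) × ℕ)) => ∀ t < y.1.2, ∀ s < t + 1,
          ¬ (S (llv y.1.1.1) (pre B t) y.1.1.2.1 ∧ s ≤ (G y.1.1.2.1 (pre B t)).length ∧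
            Dec P b pb y.1.1.1 y.1.1.2.2 s (ext (G y.1.1.2.1 (pre B t)))) := by
        refine UD.all_lt (p := fun B (y : ((ℕ × ℕ × ℕ) × ℕ) × ℕ) t => ∀ s < t + 1,
          ¬ (S (llv y.1.1.1) (pre B t) y.1.1.2.1 ∧ s ≤ (G y.1.1.2.1 (pre B t)).length ∧
            Dec P b pb y.1.1.1 y.1.1.2.2 s (ext (G y.1.1.2.1 (pre B t)))))
          (f := fun y => y.1.2) ?_ (Computable.snd.comp Computable.fst)
        exact h4.comp (f := fun y : (((ℕ × ℕ × ℕ) × ℕ) × ℕ) × ℕ => (y.1.1.1, y.2))
          ((Computable.fst.comp (Computable.fst.comp Computable.fst)).pair Computable.snd)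
      refine (h5.pos.si X).of_eq fun y => ?_
      refine forall_congr' fun t => forall_congr' fun _ => ?_
      have hlen := (hG y.1.1.2.1).len (pre X t)
      rw [length_pre] at hlen
      constructor
      · intro h6 s hs h7
        exact h6 s (by omega) ⟨h7.1, by omega, h7.2⟩
      · intro h6 s hs h7
        exact h6 s (by omega) ⟨h7.1, h7.2.2⟩
  have s3 : SI X fun y : ℕ × Bool => (n0 ≤ llv y.1.unpair.1.unpair.1 ∧
      y.1.unpair.1.unpair.2 ≠ ρ (llv y.1.unpair.1.unpair.1) ∧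
      ¬ VV G P S b pb X y.1.unpair.1.unpair.1 y.1.unpair.1.unpair.2 y.1.unpair.2) ∧
      y.2 = false := by
    refine SI.and ?_ (SI.of_prim (Primrec.eq.comp Primrec.snd (Primrec.const false)))
    refine (h3.comp (f := fun y : ℕ × Bool =>
      (y.1.unpair.1.unpair.1, (y.1.unpair.1.unpair.2, y.1.unpair.2)))
      ((zi_prim.comp Primrec.fst).pair ((zp_prim.comp Primrec.fst).pair
        (zx_prim.comp Primrec.fst)))).of_eq fun y => ?_
    exact nn_iff hF
  refine (SI.or s1 (SI.or s2 s3)).of_eq fun y => ?_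
  obtain ⟨z, v⟩ := y
  have hV : V G P S b pb X z = true ↔
      VV G P S b pb X z.unpair.1.unpair.1 z.unpair.1.unpair.2 z.unpair.2 := V_iff
  by_cases h4 : llv z.unpair.1.unpair.1 < n0
  · have h5 : z ∈ hfin.toFinset ↔ V G P S b pb X z = true := by
      rw [Set.Finite.mem_toFinset]
      exact ⟨fun h3 => h3.2, fun h3 => ⟨h4, h3⟩⟩
    have h6 : ¬ n0 ≤ llv z.unpair.1.unpair.1 := not_le.2 h4
    have h7 : ¬ own n0 ρ z := fun h => h6 h.1
    simp only [h4, h5, h6, h7, true_and, false_and, or_false, not_false_eq_true]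
    cases v
    · simp
    · simp
  · have h6 : n0 ≤ llv z.unpair.1.unpair.1 := not_lt.1 h4
    by_cases h8 : z.unpair.1.unpair.2 = ρ (llv z.unpair.1.unpair.1)
    · have h7 : own n0 ρ z := ⟨h6, h8⟩
      simp only [h4, h6, h7, h8, ne_eq, not_true, false_and, and_false, or_false]
    · have h7 : ¬ own n0 ρ z := fun h => h8 h.2
      simp only [h4, h6, h7, ne_eq, h8, not_false_eq_true, true_and, false_and, false_or, ← hV]
      cases v
      · simp
      · simp

include hP hF in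
theorem exists_Lam {n : ℕ} (hn : n0 ≤ n) (t : ℕ) : ∃ s, Lam P pb X (R n) n s t := by
  obtain ⟨f, hf, hap⟩ := hF.back n hn
  obtain ⟨s, hs⟩ := hap.len (hP f) (t + 1)
  have h1 := hs s le_rfl
  refine ⟨s, f, hf, by omega, fun a ha => ?_⟩
  have h7 := pre_getD X (P f (pre (R n) s)).length a false (by omega)
  rw [← hap.eq_pre (hP _) s] at h7
  exact h7.symm

include cP cpb in
theorem Lam_UD : UD fun O (y : ℕ × ℕ × ℕ) =>
    Lam P pb (evn O) (rown (odd O) y.1) y.1 y.2.1 y.2.2 := by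
  have hn : Computable fun y : ℕ × ℕ × ℕ => y.1 := Computable.fst
  have hs : Computable fun y : ℕ × ℕ × ℕ => y.2.1 := Computable.fst.comp Computable.snd
  have ht : Computable fun y : ℕ × ℕ × ℕ => y.2.2 := Computable.snd.comp Computable.snd
  have hrow : UD fun O (y : ℕ × ℕ) => rown (odd O) y.1 y.2 = true := DD_UD
  refine UD.ex_lt (p := fun O (y : ℕ × ℕ × ℕ) r =>
    y.2.2 < (P r (pre (rown (odd O) y.1) y.2.1)).length ∧
      ∀ a < y.2.2 + 1, evn O a = (P r (pre (rown (odd O) y.1) y.2.1)).getD a false)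
    (f := fun y => pb y.1) (UD.and ?_ ?_) (cpb.comp hn)
  · have h1 : UD fun Y (y : ℕ × ℕ × ℕ) => y.2.2 < (P y.1 (pre Y y.2.1)).length := by
      refine TP.UD.of_preC (P := fun w : List Bool × (ℕ × ℕ × ℕ) =>
        w.2.2.2 < (P w.2.1 w.1).length) ?_ hs
      exact TP.UD.lt (ht.comp Computable.snd) (Computable.list_length.comp
        (cP.comp (g := fun w : List Bool × (ℕ × ℕ × ℕ) => ((w.2.1, w.1) : ℕ × Str))
          ((Computable.fst.comp Computable.snd).pair Computable.fst)))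
    exact (UD.sub (F := fun O n => rown (odd O) n) hrow h1).comp
      (f := fun y : (ℕ × ℕ × ℕ) × ℕ => (y.1.1, (y.2, (y.1.2.1, y.1.2.2))))
      ((hn.comp Computable.fst).pair (Computable.snd.pair
        ((hs.comp Computable.fst).pair (ht.comp Computable.fst))))
  · refine UD.all_lt (p := fun O (y : (ℕ × ℕ × ℕ) × ℕ) a =>
      evn O a = (P y.2 (pre (rown (odd O) y.1.1) y.1.2.1)).getD a false)
      (f := fun y => y.1.2.2 + 1) ?_ (Computable.succ.comp (ht.comp Computable.fst))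
    have h1 : UD fun Y (y : ℕ × ℕ × ℕ) => (P y.1 (pre Y y.2.1)).getD y.2.2 false = true := by
      refine TP.UD.of_preC (P := fun w : List Bool × (ℕ × ℕ × ℕ) =>
        (P w.2.1 w.1).getD w.2.2.2 false = true) ?_ hs
      exact TP.UD.of_bool (Computable₂.comp (f := fun (l : List Bool) (n : ℕ) => l.getD n false)
        (Primrec.list_getD false).to_comp
        (cP.comp (g := fun w : List Bool × (ℕ × ℕ × ℕ) => ((w.2.1, w.1) : ℕ × Str))
          ((Computable.fst.comp Computable.snd).pair Computable.fst)) (ht.comp Computable.snd))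
    have h2 := (UD.sub (F := fun O n => rown (odd O) n) hrow h1).comp
      (f := fun y : ((ℕ × ℕ × ℕ) × ℕ) × ℕ => (y.1.1.1, (y.1.2, (y.1.1.2.1, y.2))))
      ((hn.comp (Computable.fst.comp Computable.fst)).pair
        ((Computable.snd.comp Computable.fst).pair
          ((hs.comp (Computable.fst.comp Computable.fst)).pair Computable.snd)))
    have h3 : UD fun O (y : ((ℕ × ℕ × ℕ) × ℕ) × ℕ) => evn O y.2 = true :=
      (UD.evn UD.query).comp Computable.snd
    exact (TP.UD.iff h3 h2).of_eq fun O y => Bool.eq_iff_iff.symm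

include cP cb cpb in
theorem DecO_UD : UD fun O (y : ℕ × ℕ × ℕ) =>
    Dec P b pb y.1 y.2.1 y.2.2 (rown (odd O) (llv y.1)) := by
  have hrow : UD fun O (y : ℕ × ℕ) => rown (odd O) y.1 y.2 = true := DD_UD
  exact (UD.sub (F := fun O n => rown (odd O) n) hrow (Dec_UD cP cb cpb)).comp
    (f := fun y : ℕ × ℕ × ℕ => (llv y.1, y)) ((llv_comp.comp Computable.fst).pair Computable.id)

include hG hP cP cb cpb cG cS hF in
theorem DX_le (hSb : ∀ n σ d, S n σ d → d ≤ b n) :
    TLe (fun m => DX G P S b pb X n0 ρ R m.unpair.1 m.unpair.2) X := by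
  rw [tLe_iff_SI]
  have hO : TLe (join X (col n0 R)) X := join_le (TuringReducible.refl _) (col_le hG cG hF)
  -- the variables of a query
  have cz : Primrec fun y : ℕ × Bool => y.1.unpair.2 := sec_prim.comp Primrec.fst
  have ct : Primrec fun y : ℕ × Bool => y.1.unpair.1 := fst_prim.comp Primrec.fst
  have s1 : SI X fun y : ℕ × Bool => ¬ own n0 ρ y.1.unpair.2 ∧
      V G P S b pb X y.1.unpair.2 = y.2 :=
    (off_si hG cP cb cpb cG cS hF hSb).comp (f := fun y : ℕ × Bool => (y.1.unpair.2, y.2))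
      (cz.pair Primrec.snd)
  have sown : SI X fun y : ℕ × Bool => own n0 ρ y.1.unpair.2 := (own_si hF).comp cz
  have hlt : PrimrecPred fun y : ℕ × Bool => y.1.unpair.2 < y.1.unpair.1 :=
    Primrec.nat_lt.comp cz ct
  have htr : PrimrecPred fun y : ℕ × Bool => y.2 = true :=
    Primrec.eq.comp Primrec.snd (Primrec.const true)
  have hfa : PrimrecPred fun y : ℕ × Bool => y.2 = false :=
    Primrec.eq.comp Primrec.snd (Primrec.const false)
  -- the relations in the oracle `O`
  have uL : UD fun O (y : ℕ × ℕ) => Lam P pb (evn O)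
      (rown (odd O) (llv y.1.unpair.2.unpair.1.unpair.1))
      (llv y.1.unpair.2.unpair.1.unpair.1) y.2 y.1.unpair.1 :=
    (Lam_UD cP cpb).comp (f := fun y : ℕ × ℕ =>
      (llv y.1.unpair.2.unpair.1.unpair.1, (y.2, y.1.unpair.1)))
      ((zn_comp.comp (sec_prim.to_comp.comp Computable.fst)).pair
        (Computable.snd.pair (fst_prim.to_comp.comp Computable.fst)))
  have uD : UD fun O (y : ℕ × ℕ) => Dec P b pb y.1.unpair.2.unpair.1.unpair.1
      y.1.unpair.2.unpair.2 y.2 (rown (odd O) (llv y.1.unpair.2.unpair.1.unpair.1)) :=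
    (DecO_UD cP cb cpb).comp (f := fun y : ℕ × ℕ =>
      (y.1.unpair.2.unpair.1.unpair.1, (y.1.unpair.2.unpair.2, y.2)))
      (((zi_prim.comp (sec_prim.comp Primrec.fst)).pair ((zx_prim.comp (sec_prim.comp
        Primrec.fst)).pair Primrec.snd)).to_comp)
  have s2 : SI X fun y : ℕ × Bool => own n0 ρ y.1.unpair.2 ∧ ((y.1.unpair.2 < y.1.unpair.1 ∧
      y.2 = true) ∧ ∃ s,
      ¬ Lam P pb X (R (llv y.1.unpair.2.unpair.1.unpair.1))
        (llv y.1.unpair.2.unpair.1.unpair.1) s y.1.unpair.1 ∧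
      Dec P b pb y.1.unpair.2.unpair.1.unpair.1 y.1.unpair.2.unpair.2 s
        (R (llv y.1.unpair.2.unpair.1.unpair.1))) := by
    have h1 : U1 fun O (y : ℕ) => ∃ s,
        ¬ Lam P pb (evn O) (rown (odd O) (llv y.unpair.2.unpair.1.unpair.1))
          (llv y.unpair.2.unpair.1.unpair.1) s y.unpair.1 ∧
        Dec P b pb y.unpair.2.unpair.1.unpair.1 y.unpair.2.unpair.2 s
          (rown (odd O) (llv y.unpair.2.unpair.1.unpair.1)) :=
      U1.ex (p := fun O (y : ℕ) s =>
        ¬ Lam P pb (evn O) (rown (odd O) (llv y.unpair.2.unpair.1.unpair.1))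
          (llv y.unpair.2.unpair.1.unpair.1) s y.unpair.1 ∧
        Dec P b pb y.unpair.2.unpair.1.unpair.1 y.unpair.2.unpair.2 s
          (rown (odd O) (llv y.unpair.2.unpair.1.unpair.1))) (UD.and (UD.not uL) uD).pos
    have h2 := SI.and sown (SI.and (SI.of_prim (hlt.and htr))
      (((h1.si (join X (col n0 R))).trans hO).comp (f := fun y : ℕ × Bool => y.1) Primrec.fst))
    refine h2.of_eq fun y => and_congr_right fun ho => and_congr_right fun _ => ?_
    rw [evn_join, odd_join, rown_col ho.1]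
  have s3 : SI X fun y : ℕ × Bool => own n0 ρ y.1.unpair.2 ∧ (y.2 = false ∧
      (¬ y.1.unpair.2 < y.1.unpair.1 ∨ ∃ s0,
      Lam P pb X (R (llv y.1.unpair.2.unpair.1.unpair.1))
        (llv y.1.unpair.2.unpair.1.unpair.1) s0 y.1.unpair.1 ∧ ∀ s < s0,
      (Lam P pb X (R (llv y.1.unpair.2.unpair.1.unpair.1))
        (llv y.1.unpair.2.unpair.1.unpair.1) s y.1.unpair.1 ∨
      ¬ Dec P b pb y.1.unpair.2.unpair.1.unpair.1 y.1.unpair.2.unpair.2 s
        (R (llv y.1.unpair.2.unpair.1.unpair.1))))) := by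
    have h1 : U1 fun O (y : ℕ) => ∃ s0,
        Lam P pb (evn O) (rown (odd O) (llv y.unpair.2.unpair.1.unpair.1))
          (llv y.unpair.2.unpair.1.unpair.1) s0 y.unpair.1 ∧ ∀ s < s0,
        (Lam P pb (evn O) (rown (odd O) (llv y.unpair.2.unpair.1.unpair.1))
          (llv y.unpair.2.unpair.1.unpair.1) s y.unpair.1 ∨
        ¬ Dec P b pb y.unpair.2.unpair.1.unpair.1 y.unpair.2.unpair.2 s
          (rown (odd O) (llv y.unpair.2.unpair.1.unpair.1))) := by
      refine U1.ex (p := fun O (y : ℕ) s0 =>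
        Lam P pb (evn O) (rown (odd O) (llv y.unpair.2.unpair.1.unpair.1))
          (llv y.unpair.2.unpair.1.unpair.1) s0 y.unpair.1 ∧ ∀ s < s0,
        (Lam P pb (evn O) (rown (odd O) (llv y.unpair.2.unpair.1.unpair.1))
          (llv y.unpair.2.unpair.1.unpair.1) s y.unpair.1 ∨
        ¬ Dec P b pb y.unpair.2.unpair.1.unpair.1 y.unpair.2.unpair.2 s
          (rown (odd O) (llv y.unpair.2.unpair.1.unpair.1)))) (UD.and uL ?_).pos
      refine UD.all_lt (p := fun O (y : ℕ × ℕ) s =>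
        (Lam P pb (evn O) (rown (odd O) (llv y.1.unpair.2.unpair.1.unpair.1))
          (llv y.1.unpair.2.unpair.1.unpair.1) s y.1.unpair.1 ∨
        ¬ Dec P b pb y.1.unpair.2.unpair.1.unpair.1 y.1.unpair.2.unpair.2 s
          (rown (odd O) (llv y.1.unpair.2.unpair.1.unpair.1)))) (f := fun y => y.2)
        (UD.or ?_ (UD.not ?_)) Computable.snd
      · exact uL.comp (f := fun y : (ℕ × ℕ) × ℕ => (y.1.1, y.2))
          ((Computable.fst.comp Computable.fst).pair Computable.snd)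
      · exact uD.comp (f := fun y : (ℕ × ℕ) × ℕ => (y.1.1, y.2))
          ((Computable.fst.comp Computable.fst).pair Computable.snd)
    have h2 := SI.and sown (SI.and (SI.of_prim hfa) (SI.or (SI.of_prim hlt.not)
      (((h1.si (join X (col n0 R))).trans hO).comp (f := fun y : ℕ × Bool => y.1) Primrec.fst)))
    refine h2.of_eq fun y => and_congr_right fun ho => and_congr_right fun _ =>
      or_congr Iff.rfl ?_
    rw [evn_join, odd_join, rown_col ho.1]
  refine (SI.or s1 (SI.or s2 s3)).of_eq fun y => ?_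
  obtain ⟨m, v⟩ := y
  simp only
  generalize m.unpair.1 = t
  generalize m.unpair.2 = z
  have hD := DX_iff (G := G) (P := P) (S := S) (b := b) (pb := pb) (X := X) (n0 := n0) (ρ := ρ)
    (R := R) (t := t) (z := z)
  by_cases ho : own n0 ρ z
  · have hneg : (∀ s, ¬ (¬ Lam P pb X (R (llv z.unpair.1.unpair.1)) (llv z.unpair.1.unpair.1) s t ∧
        Dec P b pb z.unpair.1.unpair.1 z.unpair.2 s (R (llv z.unpair.1.unpair.1)))) ↔
        ∃ s0, Lam P pb X (R (llv z.unpair.1.unpair.1)) (llv z.unpair.1.unpair.1) s0 t ∧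
          ∀ s < s0, (Lam P pb X (R (llv z.unpair.1.unpair.1)) (llv z.unpair.1.unpair.1) s t ∨
            ¬ Dec P b pb z.unpair.1.unpair.1 z.unpair.2 s (R (llv z.unpair.1.unpair.1))) := by
      constructor
      · intro h1
        obtain ⟨s0, hs0⟩ := exists_Lam hP hF ho.1 t
        exact ⟨s0, hs0, fun s _ => by have := h1 s; tauto⟩
      · rintro ⟨s0, h1, h2⟩ s ⟨h3, h4⟩
        by_cases hs : s < s0
        · rcases h2 s hs with h5 | h5
          · exact h3 h5
          · exact h5 h4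
        · exact h3 (Lam_mono hP (not_lt.1 hs) h1)
    rw [← hneg]
    simp only [ho, not_true, false_and, false_or, true_and] at hD ⊢
    cases v
    · rw [← Bool.not_eq_true (DX G P S b pb X n0 ρ R t z), hD]
      simp only [Bool.false_eq_true, and_false, false_and, false_or, true_and, not_and_or,
        not_exists]
    · rw [hD]
      simp only [Bool.true_eq_false, and_true, false_and, or_false]
  · simp only [ho, not_false_eq_true, false_and, or_false, true_and] at hD ⊢
    cases v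
    · rw [← Bool.not_eq_true (DX G P S b pb X n0 ρ R t z), hD, Bool.not_eq_true]
    · rw [hD]

include hG cP cb cpb cG cS hF in
/-- invariance for two oracles with finally the same roots -/
theorem half {Y : ℕ → Bool} {ρ' : ℕ → ℕ} {R' : ℕ → ℕ → Bool} {Q' : ℕ × ℕ × ℕ → Prop}
    (hSb : ∀ n σ d, S n σ d → d ≤ b n) (hF' : Fine G P S b pb Y n0 ρ' R' Q')
    (hR : ∀ n ≥ n0, R n = R' n) (hXY : TLe X Y) :
    TLe (join X (V G P S b pb X)) (join Y (V G P S b pb Y)) := by
  have hXW : TLe X (join Y (V G P S b pb Y)) := TuringReducible.trans hXY (le_join _ _)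
  refine join_le hXW ?_
  rw [tLe_iff_SI]
  have s1 := (off_si hG cP cb cpb cG cS hF hSb).trans hXW
  have s2 : SI (join Y (V G P S b pb Y)) fun y : ℕ × Bool => own n0 ρ y.1 ∧
      ∃ d T, Q' (llv y.1.unpair.1.unpair.1, T, d) ∧
        V G P S b pb Y (el y.1.unpair.1.unpair.1 d y.1.unpair.2) = y.2 := by
    refine SI.and (((own_si hF).trans hXW).comp Primrec.fst) ?_
    refine SI.ex (p := fun (y : ℕ × Bool) d => ∃ T, Q' (llv y.1.unpair.1.unpair.1, T, d) ∧
      V G P S b pb Y (el y.1.unpair.1.unpair.1 d y.1.unpair.2) = y.2) ?_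
    refine SI.ex (p := fun (y : (ℕ × Bool) × ℕ) T => Q' (llv y.1.1.unpair.1.unpair.1, T, y.2) ∧
      V G P S b pb Y (el y.1.1.unpair.1.unpair.1 y.2 y.1.1.unpair.2) = y.1.2) (SI.and ?_ ?_)
    · exact (hF'.si.trans (le_join _ _)).comp_computable
        (f := fun y : ((ℕ × Bool) × ℕ) × ℕ => (llv y.1.1.1.unpair.1.unpair.1, (y.2, y.1.2)))
        ((zn_comp.comp (Computable.fst.comp (Computable.fst.comp Computable.fst))).pair
          (Computable.snd.pair (Computable.snd.comp Computable.fst)))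
    · exact (tLe_iff_SI.1 (le_join' _ _)).comp_computable
        (f := fun y : ((ℕ × Bool) × ℕ) × ℕ =>
          (el y.1.1.1.unpair.1.unpair.1 y.1.2 y.1.1.1.unpair.2, y.1.1.2))
        ((el_comp (zi_prim.to_comp.comp (Computable.fst.comp (Computable.fst.comp
          Computable.fst))) (Computable.snd.comp Computable.fst)
          (zx_prim.to_comp.comp (Computable.fst.comp (Computable.fst.comp Computable.fst)))).pair
          (Computable.snd.comp (Computable.fst.comp Computable.fst)))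
  refine (SI.or s1 s2).of_eq fun y => ?_
  obtain ⟨z, v⟩ := y
  simp only
  by_cases ho : own n0 ρ z
  · simp only [ho, not_true, false_and, false_or, true_and]
    have h1 : V G P S b pb X z = V G P S b pb Y
        (el z.unpair.1.unpair.1 (ρ' (llv z.unpair.1.unpair.1)) z.unpair.2) := by
      rw [Bool.eq_iff_iff, V_iff, V_el, ho.2, VV_iff hG hF ho.1, VV_iff hG hF' ho.1, hR _ ho.1]
    rw [h1]
    constructor
    · rintro ⟨d, T, hQ, h2⟩
      obtain ⟨-, rfl, -⟩ := hF'.ok _ _ _ hQ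
      exact h2
    · intro h2
      obtain ⟨T, hT⟩ := hF'.ex _ ho.1
      exact ⟨_, T, hT, h2⟩
  · simp only [ho, not_false_eq_true, false_and, or_false, true_and]

end rel

end Pool.Agent.V7H75.TG
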