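import Pool.Agent.V7H75.TG.Eff
import Pool.Agent.V7H75.TG.Rel

set_option autoImplicit false

/-!
The construction for the orbits under a functional which can be undone by one of finitely many
functionals at each step.
-/

namespace Pool.Agent.V7H75.TG

open Encodable Pool.Agent.Helper227 Pool.Agent.V7H75.HF
open Pool.Agent.H548R2.Post (hlt En ext En_mono En_congr mem_WE_iff primrec_pow)
open Pool.Agent.V7H75.TP (Str SF Ap ev_all pre_eq_of rown)

/-! ### digits which matter -/

section digits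

variable {x y : ℕ → ℕ → Bool}

theorem dg_dig {n : ℕ} (h : ∀ j, ∀ b < n, x j b = y j b) : dg x n = dg y n := by
  funext t
  exact dg_congr fun b hb => h t b hb

theorem lab_dig {n : ℕ} (h : ∀ j, ∀ b < n, x j b = y j b) : lab x n = lab y n := by
  funext i j
  unfold lab
  congr 1
  exact seg_congr fun t _ => by rw [dg_dig h]

theorem M_dig (n : ℕ) : (∀ j, ∀ b < n, x j b = y j b) → M x n = M y n := by
  induction n with
  | zero => intro _; rfl
  | succ n ih =>
    intro h
    have h1 := ih fun j b hb => h j b (by omega)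
    have h2 := lab_dig h
    funext i
    show nM x (n + 1) (gM n) (M x n) i = nM y (n + 1) (gM n) (M y n) i
    unfold nM
    rw [h1, h2]

theorem K_dig (n : ℕ) : (∀ j, ∀ b < n, x j b = y j b) → K x n = K y n := by
  induction n with
  | zero => intro _; rfl
  | succ n ih =>
    intro h
    have h1 := ih fun j b hb => h j b (by omega)
    have h2 := M_dig n fun j b hb => h j b (by omega)
    have h3 := M_dig (n + 1) h
    have h4 := dg_dig h
    funext i
    show nK x (n + 1) (gM n) (M x n) (M x (n + 1)) (K x n) i =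
      nK y (n + 1) (gM n) (M y n) (M y (n + 1)) (K y n) i
    unfold nK
    rw [h1, h2, h3, h4]

theorem Dp_dig {n d : ℕ} (h : ∀ j, ∀ b ≤ n, x j b = y j b) : Dp x n d ↔ Dp y n d := by
  unfold Dp Ct
  rw [K_dig n fun j b hb => h j b hb.le]
  simp only [h _ 0 (Nat.zero_le n)]

end digits

/-! ### the instance -/

section defs

variable (g : Str → Str) (H : ℕ → Str → Str) (m : ℕ)

/-- the list with the code `r` -/
def dl (r : ℕ) : List ℕ := Denumerable.ofNat (List ℕ) r

/-- the way back with the code `r` -/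
def Pf (r : ℕ) (σ : Str) : Str := (dl r).foldl (fun τ l => H l τ) σ

def Gd (d : ℕ) (σ : Str) : Str := g^[d] σ

def Sn (n : ℕ) (σ : Str) (d : ℕ) : Prop := Dp (Raw g H m n σ) n d

def pbb (n : ℕ) : ℕ := bd m (gK n) + 1

/-- the visible part, as an oracle -/
noncomputable def cc (n : ℕ) (σ : Str) : ℕ → Bool :=
  fun a => Raw g H m n σ a.unpair.1 a.unpair.2

theorem rown_cc (n : ℕ) (σ : Str) : rown (cc g H m n σ) = Raw g H m n σ := by
  funext j b
  simp [rown, cc]

end defs

section facts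

variable {g : Str → Str} {H : ℕ → Str → Str} {m : ℕ} (hg : SF g) (hH : ∀ l, SF (H l))

include hH in
theorem Pf_SF (r : ℕ) : SF (Pf H r) := by
  have key : ∀ f : List ℕ, SF (fun σ => f.foldl (fun τ l => H l τ) σ) := by
    intro f
    induction f with
    | nil => exact SF.id
    | cons l f ih => exact ih.comp (hH l)
  exact key _

theorem Pf_reverse (f : List ℕ) (σ : Str) : Pf H (encode f.reverse) σ = Hp H f σ := by
  unfold Pf dl Hp
  rw [Denumerable.ofNat_encode, List.foldl_reverse]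

include hg in
theorem Gd_SF (d : ℕ) : SF (Gd g d) := hg.iter d

theorem In_prim (X : ℕ → Bool) : PrimrecPred fun j : ℕ => In g H m X j := by
  classical
  by_cases h : ∃ j, ¬ In g H m X j
  · refine (Primrec.nat_lt.comp Primrec.id (Primrec.const (Nat.find h))).of_eq fun j => ?_
    constructor
    · intro h1
      exact not_not.1 (Nat.find_min h h1)
    · intro h1
      by_contra hc
      exact Nat.find_spec h (In_le (not_lt.1 hc) h1)
  · push Not at h
    exact (PP.const True).of_eq fun j => ⟨fun _ => h j, fun _ => trivial⟩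

end facts

/-! ### computability -/

section eff

variable {g : Str → Str} {H : ℕ → Str → Str} {m : ℕ} (cg : Computable g)
  (cH : Computable fun y : ℕ × Str => H y.1 y.2)

include cH in
theorem Pf_comp : Computable fun y : ℕ × Str => Pf H y.1 y.2 := by
  have h0 : Primrec fun y : ℕ × Str => dl y.1 := (Primrec.ofNat (List ℕ)).comp Primrec.fst
  have h1 := Computable.nat_rec (f := fun y : ℕ × Str => (dl y.1).length)
    (g := fun y : ℕ × Str => y.2)
    (h := fun (y : ℕ × Str) (z : ℕ × Str) => H ((dl y.1).getD z.1 0) z.2)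
    (Primrec.list_length.comp h0).to_comp Computable.snd
    (cH.comp (g := fun w : (ℕ × Str) × (ℕ × Str) => (((dl w.1.1).getD w.2.1 0, w.2.2) : ℕ × Str))
      (Computable.pair ((Primrec.list_getD 0).comp (h0.comp Primrec.fst)
        (Primrec.fst.comp Primrec.snd)).to_comp (Computable.snd.comp Computable.snd)))
  refine h1.of_eq fun y => ?_
  rcases y with ⟨r, σ⟩
  unfold Pf
  generalize dl r = f
  have key : ∀ t, t ≤ f.length → (Nat.rec σ (fun t τ => H (f.getD t 0) τ) t : Str) =
      (f.take t).foldl (fun τ l => H l τ) σ := by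
    intro t
    induction t with
    | zero => intro _; rfl
    | succ t ih =>
      intro ht
      have h2 := ih (by omega)
      have h3 : f.take (t + 1) = f.take t ++ [f.getD t 0] := by
        rw [List.take_add_one, List.getElem?_eq_getElem (by omega), List.getD_eq_getElem _ _ (by omega)]
        rfl
      rw [h3, List.foldl_append, ← h2]
      rfl
  have h4 := key f.length le_rfl
  rw [List.take_length] at h4
  exact h4

include cg cH

theorem ok_UD : UD fun _ (y : ℕ × Str) => ok g H m y.1 y.2 := by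
  refine UD.ex_lt (p := fun _ (y : ℕ × Str) l => TP.ok g (H l) y.1 y.2) (f := fun _ => m) ?_
    (Computable.const m)
  have hn : Computable fun z : (ℕ × Str) × ℕ => z.1.1 := Computable.fst.comp Computable.fst
  have hσ : Computable fun z : (ℕ × Str) × ℕ => z.1.2 := Computable.snd.comp Computable.fst
  have hl : Computable fun z : (ℕ × Str) × ℕ => z.1.2.length := Computable.list_length.comp hσ
  have ht : Computable fun z : (ℕ × Str) × ℕ => z.1.2.take z.1.1 :=
    (Primrec.list_take.comp (Primrec.fst.comp Primrec.fst)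
      (Primrec.snd.comp Primrec.fst)).to_comp
  have hp : PrimrecPred fun x : Str × Str => x.1 <+: x.2 := by
    refine (Primrec.eq.comp (f := fun x : Str × Str => x.1)
      (g := fun x : Str × Str => x.2.take x.1.length) Primrec.fst
      (Primrec.list_take.comp (Primrec.list_length.comp Primrec.fst) Primrec.snd)).of_eq fun x => ?_
    exact List.prefix_iff_eq_take.symm
  refine UD.and (TP.UD.le hn hl) ?_
  exact UD.of_comp (p := fun x : Str × Str => x.1 <+: x.2) hp
    (ht.pair (cH.comp (g := fun z : (ℕ × Str) × ℕ => ((z.2, g z.1.2) : ℕ × Str))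
      (Computable.snd.pair (cg.comp hσ))))

theorem ver_UD : UD fun _ (y : (ℕ × ℕ) × Str) => ver g H m y.1.1 y.1.2 y.2 := by
  refine UD.and (TP.UD.le (Computable.fst.comp Computable.fst)
    (Computable.list_length.comp Computable.snd)) ?_
  refine UD.all_lt (p := fun _ (y : (ℕ × ℕ) × Str) l => ok g H m y.1.1 (g^[l] y.2))
    (f := fun y => y.1.2) ?_ (Computable.snd.comp Computable.fst)
  exact (ok_UD cg cH).comp (f := fun z : ((ℕ × ℕ) × Str) × ℕ =>
    ((z.1.1.1, g^[z.2] z.1.2) : ℕ × Str))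
    ((Computable.fst.comp (Computable.fst.comp Computable.fst)).pair ((TP.it_comp cg).comp
      (g := fun z : ((ℕ × ℕ) × Str) × ℕ => ((z.2, z.1.2) : ℕ × Str))
      (Computable.snd.pair (Computable.snd.comp Computable.fst))))

theorem Raw_UD : UD fun _ (y : (ℕ × Str) × (ℕ × ℕ)) =>
    Raw g H m y.1.1 y.1.2 y.2.1 y.2.2 = true := by
  have hb : Computable fun y : (ℕ × Str) × (ℕ × ℕ) => y.2.2 := Computable.snd.comp Computable.snd
  have hj : Computable fun y : (ℕ × Str) × (ℕ × ℕ) => y.2.1 := Computable.fst.comp Computable.snd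
  have hs : Computable fun y : (ℕ × Str) × (ℕ × ℕ) => y.1.2 := Computable.snd.comp Computable.fst
  have h1 : UD fun (_ : ℕ → Bool) (y : (ℕ × Str) × (ℕ × ℕ)) => y.2.2 ≤ y.1.1 :=
    TP.UD.le hb (Computable.fst.comp Computable.fst)
  have h2 : UD fun (_ : ℕ → Bool) (y : (ℕ × Str) × (ℕ × ℕ)) => ver g H m y.1.1 y.2.1 y.1.2 :=
    (ver_UD cg cH).comp (f := fun y : (ℕ × Str) × (ℕ × ℕ) =>
      (((y.1.1, y.2.1), y.1.2) : (ℕ × ℕ) × Str))
      (Computable.pair (Computable.pair (Computable.fst.comp Computable.fst) hj) hs)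
  have h3 : UD fun (_ : ℕ → Bool) (y : (ℕ × Str) × (ℕ × ℕ)) => y.2.2 = 0 :=
    TP.UD.eqn hb (Computable.const 0)
  have h4 : UD fun (_ : ℕ → Bool) (y : (ℕ × Str) × (ℕ × ℕ)) =>
      (g^[y.2.1] y.1.2).getD (y.2.2 - 1) false = true :=
    TP.UD.of_bool (Computable₂.comp (f := fun (l : List Bool) (n : ℕ) => l.getD n false)
      (Primrec.list_getD false).to_comp ((TP.it_comp cg).comp
        (g := fun y : (ℕ × Str) × (ℕ × ℕ) => ((y.2.1, y.1.2) : ℕ × Str)) (hj.pair hs))
      (Primrec.pred.to_comp.comp hb))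
  refine (UD.and h1 (UD.and h2 (UD.or h3 h4))).of_eq fun _ y => ?_
  unfold Raw
  simp

theorem ccS_UD : UD fun _ (y : (ℕ × Str) × ℕ) => cc g H m y.1.1 y.1.2 y.2 = true :=
  (Raw_UD cg cH).comp (f := fun y : (ℕ × Str) × ℕ => ((y.1, y.2.unpair) : (ℕ × Str) × (ℕ × ℕ)))
    (Computable.fst.pair (Computable.unpair.comp Computable.snd))

theorem Sn_UD : UD fun _ (y : (ℕ × Str) × ℕ) => Sn g H m y.1.1 y.1.2 y.2 := by
  have h1 := UD.sub (F := fun (_ : ℕ → Bool) (x : ℕ × Str) => cc g H m x.1 x.2)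
    (ccS_UD cg cH) Dp_UD
  refine (h1.comp (f := fun y : (ℕ × Str) × ℕ => ((y.1, (y.1.1, y.2)) : (ℕ × Str) × (ℕ × ℕ)))
    (Computable.fst.pair ((Computable.fst.comp Computable.fst).pair Computable.snd))).of_eq
      fun B y => ?_
  rw [rown_cc]
  exact Iff.rfl

theorem ccX_UD : UD fun B (y : (ℕ × ℕ) × ℕ) => cc g H m y.1.1 (pre B y.1.2) y.2 = true := by
  refine TP.UD.of_preC (P := fun w : List Bool × ((ℕ × ℕ) × ℕ) =>
    cc g H m w.2.1.1 w.1 w.2.2 = true) ?_ (Computable.snd.comp Computable.fst)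
  exact (ccS_UD cg cH).comp (f := fun w : List Bool × ((ℕ × ℕ) × ℕ) =>
    (((w.2.1.1, w.1), w.2.2) : (ℕ × Str) × ℕ))
    (Computable.pair ((Computable.fst.comp (Computable.fst.comp Computable.snd)).pair
      Computable.fst) (Computable.snd.comp Computable.snd))

theorem verX_UD : UD fun B (y : (ℕ × ℕ) × ℕ) => ver g H m y.1.1 y.1.2 (pre B y.2) := by
  refine TP.UD.of_preC (P := fun w : List Bool × ((ℕ × ℕ) × ℕ) =>
    ver g H m w.2.1.1 w.2.1.2 w.1) ?_ Computable.snd
  exact (ver_UD cg cH).comp (f := fun w : List Bool × ((ℕ × ℕ) × ℕ) =>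
    (((w.2.1.1, w.2.1.2), w.1) : (ℕ × ℕ) × Str))
    (Computable.pair ((Computable.fst.comp (Computable.fst.comp Computable.snd)).pair
      (Computable.snd.comp (Computable.fst.comp Computable.snd))) Computable.fst)

end eff

theorem pbb_comp (m : ℕ) : Computable (pbb m) :=
  (Primrec.succ.comp (bd_prim.comp (Primrec.const m) gK_prim)).to_comp

/-! ### the facts about the roots -/

section fine

variable {g : Str → Str} {H : ℕ → Str → Str} {m : ℕ} (hg : SF g) (hH : ∀ l, SF (H l))
  (cg : Computable g) (cH : Computable fun y : ℕ × Str => H y.1 y.2)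

include hg hH cg cH

theorem exists_fine (X : ℕ → Bool) : ∃ n0 ρ Q, Fine (Gd g) (Pf H) (Sn g H m) gK (pbb m) X n0 ρ
    (fun n => zz g H m X (ρ n)) Q ∧ ∀ n, Dp (Rt g H m X) n (ρ n) := by
  obtain ⟨n0, hn0⟩ := exists_Lv (g := g) (H := H) (m := m) hg hH X
  choose ρ hρ using fun n => exists_Dp (Rt g H m X) n
  obtain ⟨E, hE, mE, eE⟩ := Dp_UD.pos
  -- the final values
  let fin : ℕ → ℕ → ℕ → Bool := fun n j b => decide (b ≤ n) && Rt g H m X j b
  have hfin : ∀ n d, Dp (fin n) n d ↔ Dp (Rt g H m X) n d := fun n d =>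
    Dp_dig fun j b hb => by simp [fin, hb]
  let fc : ℕ → ℕ → Bool := fun n a => fin n a.unpair.1 a.unpair.2
  have hfc : ∀ n, rown (fc n) = fin n := fun n => by
    funext j b
    simp [rown, fc]
  let Q : ℕ × ℕ × ℕ → Prop := fun a => n0 ≤ a.1 ∧ ∃ s,
    (∀ e < s, a.1 < e.unpair.2 ∨ (¬ In g H m X e.unpair.1 ∨
      ver g H m a.1 e.unpair.1 (pre X a.2.1))) ∧ E (pre (cc g H m a.1 (pre X a.2.1)) s, (a.1, a.2.2))
  have agree : ∀ n T s, n0 ≤ n → (∀ e < s, n < e.unpair.2 ∨ (¬ In g H m X e.unpair.1 ∨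
      ver g H m n e.unpair.1 (pre X T))) → ∀ t ≥ T,
      pre (cc g H m n (pre X t)) s = pre (fc n) s := by
    intro n T s hn h1 t ht
    refine pre_eq_of fun e he => ?_
    show Raw g H m n (pre X t) e.unpair.1 e.unpair.2 = (decide (e.unpair.2 ≤ n) &&
      Rt g H m X e.unpair.1 e.unpair.2)
    by_cases hb : e.unpair.2 ≤ n
    · rcases h1 e he with h2 | h2
      · omega
      · rw [Raw_eq hg hH (hn0 n hn) hb (h2.imp_right fun h3 =>
          ver_mono hg hH (pre_prefix X ht) h3)]
        simp [hb]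
    · have : Raw g H m n (pre X t) e.unpair.1 e.unpair.2 = false := by
        unfold Raw
        simp [hb]
      rw [this]
      simp [hb]
  refine ⟨n0, ρ, Q, ⟨fun n _ => ?_, fun n _ => ?_, fun n _ => (hρ n).2, ?_, fun n hn => ?_, ?_⟩,
    fun n => (hρ n).1⟩
  · exact ap_nat hg (ρ n) (Dp_In (hρ n).1)
  · obtain ⟨f, h1, h2, h3⟩ := exists_back hg (ρ n) X (Dp_In (hρ n).1) hH
    refine ⟨encode f.reverse, ?_, ?_⟩
    · have h4 := encode_le_bd (c := m) f.reverse fun a ha => h2 a (List.mem_reverse.1 ha)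
      have h5 : bd m f.reverse.length ≤ bd m (gK n) := by
        apply bd_mono
        rw [List.length_reverse, h1]
        exact (hρ n).2
      exact Nat.lt_succ_of_le (h4.trans h5)
    · have h4 : Pf H (encode f.reverse) = Hp H f := funext fun σ => Pf_reverse f σ
      rw [h4]
      exact h3
  · -- computability
    refine SI.and (SI.of_prim (Primrec.nat_le.comp (Primrec.const n0) Primrec.fst)) ?_
    refine SI.ex (p := fun (a : ℕ × ℕ × ℕ) s => (∀ e < s, a.1 < e.unpair.2 ∨
      (¬ In g H m X e.unpair.1 ∨ ver g H m a.1 e.unpair.1 (pre X a.2.1))) ∧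
      E (pre (cc g H m a.1 (pre X a.2.1)) s, (a.1, a.2.2))) (SI.and ?_ ?_)
    · refine SI.all_lt (α := (ℕ × ℕ × ℕ) × ℕ) (p := fun a e => a.1.1 < e.unpair.2 ∨
        (¬ In g H m X e.unpair.1 ∨ ver g H m a.1.1 e.unpair.1 (pre X a.1.2.1)))
        (f := fun a => a.2) (SI.or (SI.of_prim ?_) (SI.or (SI.of_prim ?_) ?_)) Primrec.snd
      · exact Primrec.nat_lt.comp (Primrec.fst.comp (Primrec.fst.comp Primrec.fst))
          (TP.sec_prim.comp Primrec.snd)
      · exact (In_prim X).not.comp (TP.fst_prim.comp Primrec.snd)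
      · exact ((verX_UD cg cH).pos.si X).comp (f := fun w : ((ℕ × ℕ × ℕ) × ℕ) × ℕ =>
          ((w.1.1.1, w.2.unpair.1), w.1.1.2.1))
          (((Primrec.fst.comp (Primrec.fst.comp Primrec.fst)).pair
            (TP.fst_prim.comp Primrec.snd)).pair
            (Primrec.fst.comp (Primrec.snd.comp (Primrec.fst.comp Primrec.fst))))
    · have h1 : U1 fun V (y : ℕ × (ℕ × ℕ)) => E (pre V y.1, y.2) :=
        U1.of_pre (P := fun w : List Bool × (ℕ × (ℕ × ℕ)) => E (w.1, w.2.2))
          (hE.comp (Primrec.fst.pair (Primrec.snd.comp Primrec.snd))) Computable.fst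
      have h2 := U1.sub (F := fun B (x : ℕ × ℕ) => cc g H m x.1 (pre B x.2))
        (UD.graph (F := fun B (y : (ℕ × ℕ) × ℕ) => cc g H m y.1.1 (pre B y.1.2) y.2)
          (ccX_UD cg cH)) h1
      exact (h2.si X).comp (f := fun w : (ℕ × ℕ × ℕ) × ℕ =>
        ((w.1.1, w.1.2.1), (w.2, (w.1.1, w.1.2.2))))
        (((Primrec.fst.comp Primrec.fst).pair
          (Primrec.fst.comp (Primrec.snd.comp Primrec.fst))).pair
          (Primrec.snd.pair ((Primrec.fst.comp Primrec.fst).pair
            (Primrec.snd.comp (Primrec.snd.comp Primrec.fst)))))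
  · -- existence
    have h1 : Dp (rown (fc n)) n (ρ n) := by
      rw [hfc, hfin]
      exact (hρ n).1
    obtain ⟨s, hs⟩ := (eE (fc n) (n, ρ n)).1 h1
    obtain ⟨T, hT⟩ : ∃ T, ∀ t ≥ T, ∀ e < s, n < e.unpair.2 ∨ (¬ In g H m X e.unpair.1 ∨
        ver g H m n e.unpair.1 (pre X t)) := by
      refine ev_all (P := fun e t => n < e.unpair.2 ∨ (¬ In g H m X e.unpair.1 ∨
        ver g H m n e.unpair.1 (pre X t))) s fun e _ => ?_
      by_cases hin : In g H m X e.unpair.1
      · obtain ⟨T, hT⟩ := ver_of_in hg hH n _ hin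
        exact ⟨T, fun t ht => Or.inr (Or.inr (hT t ht))⟩
      · exact ⟨0, fun _ _ => Or.inr (Or.inl hin)⟩
    refine ⟨T, hn, s, hT T le_rfl, ?_⟩
    rw [agree n T s hn (hT T le_rfl) T le_rfl]
    exact hs
  · rintro n T d ⟨hn, s, h1, h2⟩
    have h3 : ∀ t ≥ T, Sn g H m n (pre X t) d := by
      intro t ht
      have h4 : Dp (rown (cc g H m n (pre X t))) n d := by
        refine (eE (cc g H m n (pre X t)) (n, d)).2 ⟨s, ?_⟩
        rw [agree n T s hn h1 t ht, ← agree n T s hn h1 T le_rfl]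
        exact h2
      rw [rown_cc] at h4
      exact h4
    have h5 : Dp (Rt g H m X) n d := by
      rw [← hfin, ← hfc]
      refine (eE (fc n) (n, d)).2 ⟨s, ?_⟩
      rw [← agree n T s hn h1 T le_rfl]
      exact h2
    exact ⟨hn, h5.uniq (hρ n).1, fun t ht d' => ⟨fun h6 => Dp.uniq h6 (h3 t ht),
      fun h6 => h6 ▸ h3 t ht⟩⟩

/-- the set for an oracle -/
noncomputable def Wg (g : Str → Str) (H : ℕ → Str → Str) (m : ℕ) (X : ℕ → Bool) : ℕ → Bool :=
  join X (V (Gd g) (Pf H) (Sn g H m) gK (pbb m) X)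

omit hg hH in
theorem Wg_U1 : U1 fun B (n : ℕ) => Wg g H m B n = true :=
  W_U1 (Pf_comp cH) gK_prim.to_comp (pbb_comp m) (TP.it_comp cg) (Sn_UD cg cH)

theorem not_Wg_le (X : ℕ → Bool) : ¬ TLe (Wg g H m X) X := by
  obtain ⟨n0, ρ, Q, hF, -⟩ := exists_fine (m := m) hg hH cg cH X
  exact fun h => not_V_le (Gd_SF hg) (Pf_SF hH) hF (TuringReducible.trans (le_join' _ _) h)

theorem not_jump_le_Wg (X : ℕ → Bool) : ¬ TLe (jump X) (Wg g H m X) := by
  obtain ⟨n0, ρ, Q, hF, -⟩ := exists_fine (m := m) hg hH cg cH X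
  exact not_jump_le (enu (Gd_SF hg) (Pf_SF hH) hF) (DX_le (Gd_SF hg) (Pf_SF hH) (Pf_comp cH)
    gK_prim.to_comp (pbb_comp m) (TP.it_comp cg) (Sn_UD cg cH) hF fun n σ d h => Dp.le h)

omit hH cH in
theorem Ap_le {X Y : ℕ → Bool} (hA : Ap g X Y) : TLe Y X := by
  rw [tLe_iff_SI]
  have h1 : UD fun B (y : (ℕ × Bool) × ℕ) => y.1.1 < (g (pre B y.2)).length ∧
      (g (pre B y.2)).getD y.1.1 false = y.1.2 := by
    refine TP.UD.of_preC (P := fun w : List Bool × ((ℕ × Bool) × ℕ) =>
      w.2.1.1 < (g w.1).length ∧ (g w.1).getD w.2.1.1 false = w.2.1.2) ?_ Computable.snd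
    have c1 : Computable fun w : List Bool × ((ℕ × Bool) × ℕ) => w.2.1.1 :=
      Computable.fst.comp (Computable.fst.comp Computable.snd)
    have c2 : Computable fun w : List Bool × ((ℕ × Bool) × ℕ) => g w.1 := cg.comp Computable.fst
    refine UD.and (TP.UD.lt c1 (Computable.list_length.comp c2)) ?_
    exact UD.of_comp (p := fun x : Bool × Bool => x.1 = x.2) Primrec.eq
      ((Computable₂.comp (f := fun (l : List Bool) (n : ℕ) => l.getD n false)
        (Primrec.list_getD false).to_comp c2 c1).pair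
        (Computable.snd.comp (Computable.fst.comp Computable.snd)))
  refine (SI.ex (p := fun (y : ℕ × Bool) t => y.1 < (g (pre X t)).length ∧
    (g (pre X t)).getD y.1 false = y.2) (h1.pos.si X)).of_eq fun y => ?_
  constructor
  · rintro ⟨t, ht1, ht2⟩
    rw [← ht2]
    have h6 := pre_getD Y _ y.1 false ht1
    rw [← hA.eq_pre hg t] at h6
    exact h6.symm
  · intro h6
    obtain ⟨t, ht⟩ := hA.len hg (y.1 + 1)
    have ht' : y.1 < (g (pre X t)).length := ht t le_rfl
    refine ⟨t, ht', ?_⟩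
    rw [← h6]
    have h7 := pre_getD Y _ y.1 false ht'
    rw [← hA.eq_pre hg t] at h7
    exact h7

/-- invariance -/
theorem inv {X Y : ℕ → Bool} (hR : Rl g H m X Y) :
    TLe (Wg g H m X) (Wg g H m Y) ∧ TLe (Wg g H m Y) (Wg g H m X) := by
  obtain ⟨n0, ρ, Q, hF, hρ⟩ := exists_fine (m := m) hg hH cg cH X
  obtain ⟨n1, ρ', Q', hF', hρ'⟩ := exists_fine (m := m) hg hH cg cH Y
  obtain ⟨N, hN⟩ := Rl_link hg hR
  have hYX : TLe Y X := Ap_le hg cg hR.1
  have hXY : TLe X Y := by
    obtain ⟨-, l, -, hl⟩ := hR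
    exact Ap_le (hH l) (cH.comp (g := fun σ : Str => ((l, σ) : ℕ × Str))
      ((Computable.const l).pair Computable.id)) hl
  have h1 := hF.up (N := max (max n0 n1) N) (by omega)
  have h2 := hF'.up (N := max (max n0 n1) N) (by omega)
  have h3 : ∀ n ≥ max (max n0 n1) N, zz g H m X (ρ n) = zz g H m Y (ρ' n) := fun n hn =>
    hN n (by omega) _ _ (hρ n) (hρ' n)
  exact ⟨half (Gd_SF hg) (Pf_comp cH) gK_prim.to_comp (pbb_comp m) (TP.it_comp cg)
      (Sn_UD cg cH) h1 (fun n σ d h => Dp.le h) h2 h3 hXY,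
    half (Gd_SF hg) (Pf_comp cH) gK_prim.to_comp (pbb_comp m) (TP.it_comp cg)
      (Sn_UD cg cH) h2 (fun n σ d h => Dp.le h) h1 (fun n hn => (h3 n hn).symm) hYX⟩

end fine

end Pool.Agent.V7H75.TG
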