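import Pool.Agent.V7H75.TG.Inst
import Pool.Agent.V7H75.TP.Main

set_option autoImplicit false

/-!
Solutions to Post's problem which are invariant for one program and a finite list of programs for
the way back.
-/

namespace Pool.Agent.V7H75.TG

open Encodable Pool.Agent.Helper227 Pool.Agent.V7H75.HF
open Nat.Partrec (Code)
open Pool.Agent.V7H75.TP (Str SF Ap le_iff ch_true ch_eq exists_program tLe_of_SI J_le le_J dec_SF
  dec_computable ap_of_red)

open Pool.Agent.H639 Pool.Agent.H639.LU in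
theorem main_aux {g : TP.Str → TP.Str} {H : ℕ → TP.Str → TP.Str} (m : ℕ) (hg : SF g)
    (hH : ∀ l, SF (H l)) (cg : Computable g) (cH : Computable fun y : ℕ × TP.Str => H y.1 y.2) :
    ∃ r : Code, (∀ X : ℕ → Bool, le X (ch (LU.W r X)) ∧ ¬ le (ch (LU.W r X)) X ∧
      le (ch (LU.W r X)) (ch (J X)) ∧ ¬ le (ch (J X)) (ch (LU.W r X))) ∧
    ∀ X Y : ℕ → Bool, Rl g H m X Y →
      le (ch (LU.W r X)) (ch (LU.W r Y)) ∧ le (ch (LU.W r Y)) (ch (LU.W r X)) := by
  obtain ⟨E, hE, -, eE⟩ := Wg_U1 (m := m) cg cH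
  obtain ⟨r, hr⟩ := exists_program hE
  have hW : ∀ X, ch (LU.W r X) = Wg g H m X := by
    intro X
    funext n
    rw [Bool.eq_iff_iff, ch_true, hr X n]
    exact (eE X n).symm
  refine ⟨r, fun X => ?_, fun X Y h1 => ?_⟩
  · simp only [le_iff, hW]
    refine ⟨le_join _ _, fun h => not_Wg_le hg hH cg cH X h, ?_,
      fun h => not_jump_le_Wg hg hH cg cH X (TuringReducible.trans (le_J X) h)⟩
    have h1 := tLe_of_SI ((Wg_U1 (m := m) cg cH).si X)
    rw [ch_eq] at h1
    exact TuringReducible.trans h1 (le_J X)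
  · simp only [le_iff, hW]
    exact inv hg hH cg cH h1

/-- the list of the programs for the way back -/
def HM (M : List Code) (i : Code) (l : ℕ) : TP.Str → TP.Str :=
  Pool.Agent.H639.LU.dec (M.getD l i)

theorem HM_comp1 (M : List Code) (i : Code) :
    Computable fun y : ℕ × TP.Str => M.getD y.1 i :=
  ((Primrec.list_getD i).comp (Primrec.const M) Primrec.fst).to_comp

theorem decC : Computable fun x : Code × TP.Str => Pool.Agent.H639.LU.dec x.1 x.2 :=
  (Pool.Agent.H639.LU.C2 Pool.Agent.H639.LU.C1).1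

theorem HM_comp (M : List Code) (i : Code) :
    Computable fun y : ℕ × TP.Str => HM M i y.1 y.2 := by
  have h2 : Computable fun y : ℕ × TP.Str => ((M.getD y.1 i, y.2) : Code × TP.Str) :=
    Computable.pair (HM_comp1 M i) Computable.snd
  have h3 := decC.comp h2
  exact h3

open Pool.Agent.H639 Pool.Agent.H639.LU in
/-- for each program and each finite list of programs for the way back there is a solution to
Post's problem which is invariant. -/
theorem main (i : Code) (M : List Code) : ∃ r : Code,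
    (∀ X : ℕ → Bool, le X (ch (LU.W r X)) ∧ ¬ le (ch (LU.W r X)) X ∧
      le (ch (LU.W r X)) (ch (J X)) ∧ ¬ le (ch (J X)) (ch (LU.W r X))) ∧
    ∀ X Y : ℕ → Bool, Red i X Y → (∃ j ∈ M, Red j Y X) →
      le (ch (LU.W r X)) (ch (LU.W r Y)) ∧ le (ch (LU.W r Y)) (ch (LU.W r X)) := by
  obtain ⟨r, h1, h2⟩ := main_aux (g := dec i) (H := HM M i) M.length (dec_SF i)
    (fun l => dec_SF _) (dec_computable i) (HM_comp M i)
  refine ⟨r, h1, fun X Y h3 ⟨j, hj, h4⟩ => h2 X Y ⟨ap_of_red h3, ?_⟩⟩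
  obtain ⟨l, hl, rfl⟩ := List.getElem_of_mem hj
  refine ⟨l, hl, ?_⟩
  unfold HM
  rw [List.getD_eq_getElem _ _ hl]
  exact ap_of_red h4

end Pool.Agent.V7H75.TG
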