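import Pool.Agent.V7H75.TG.Link
import Pool.Agent.V7H75.TP.Str

set_option autoImplicit false

/-!
The orbits of an oracle under a functional which can be undone by one of finitely many
functionals at each step.
-/

namespace Pool.Agent.V7H75.TG

open Pool.Agent.Helper227 Pool.Agent.V7H75.HF
open Pool.Agent.V7H75.TP (Str SF Ap pre_eq_iff it it_succ)

/-- `Y` is obtained from `X` by `g`, and `X` from `Y` by one of the first `m` functionals `H`. -/
def Rl (g : Str → Str) (H : ℕ → Str → Str) (m : ℕ) (X Y : ℕ → Bool) : Prop :=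
  Ap g X Y ∧ ∃ l < m, Ap (H l) Y X

/-- verification of the length `n` -/
def ok (g : Str → Str) (H : ℕ → Str → Str) (m n : ℕ) (σ : Str) : Prop :=
  ∃ l < m, TP.ok g (H l) n σ

section okk

variable {g : Str → Str} {H : ℕ → Str → Str} {m : ℕ} (hg : SF g) (hH : ∀ l, SF (H l))

include hg hH

theorem ok_mono {n : ℕ} {σ τ : Str} (h1 : σ <+: τ) (h2 : ok g H m n σ) : ok g H m n τ := by
  obtain ⟨l, hl, h3⟩ := h2
  exact ⟨l, hl, TP.ok_mono hg (hH l) h1 h3⟩

theorem ok_len {n : ℕ} {σ : Str} (h2 : ok g H m n σ) : n ≤ (g σ).length := by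
  obtain ⟨l, hl, h3⟩ := h2
  exact TP.ok_len hg (hH l) h3

omit hg hH in
theorem ok_anti {n k : ℕ} (hk : k ≤ n) {σ : Str} (h2 : ok g H m n σ) : ok g H m k σ := by
  obtain ⟨l, hl, h3⟩ := h2
  exact ⟨l, hl, TP.ok_anti hk h3⟩

theorem ok_of_Rl {X Y : ℕ → Bool} (hR : Rl g H m X Y) (n : ℕ) :
    ∃ s, ∀ s' ≥ s, ok g H m n (pre X s') := by
  obtain ⟨h1, l, hl, h2⟩ := hR
  obtain ⟨s, hs⟩ := TP.ok_of_Rl hg (hH l) ⟨h1, h2⟩ n
  exact ⟨s, fun s' hs' => ⟨l, hl, hs s' hs'⟩⟩

theorem Rl_of_ok {X : ℕ → Bool} (hX : ∀ n, ∃ s, ok g H m n (pre X s)) : ∃ Y, Rl g H m X Y := by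
  have h1 : ∃ l < m, ∀ n, ∃ s, TP.ok g (H l) n (pre X s) := by
    by_contra hc
    push Not at hc
    have h2 : ∀ l, ∃ n, l < m → ∀ s, ¬ TP.ok g (H l) n (pre X s) := by
      intro l
      by_cases hl : l < m
      · obtain ⟨n, hn⟩ := hc l hl
        exact ⟨n, fun _ => hn⟩
      · exact ⟨0, fun h => absurd h hl⟩
    choose f hf using h2
    obtain ⟨s, l, hl, h3⟩ := hX ((Finset.range m).sup f)
    exact hf l hl s (TP.ok_anti (Finset.le_sup (f := f) (Finset.mem_range.2 hl)) h3)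
  obtain ⟨l, hl, h2⟩ := h1
  obtain ⟨Y, h3, h4⟩ := TP.Rl_of_ok hg (hH l) h2
  exact ⟨Y, h3, l, hl, h4⟩

end okk

/-! ### orbits -/

open Classical in
/-- the next oracle -/
noncomputable def fw (g : Str → Str) (H : ℕ → Str → Str) (m : ℕ) (X : ℕ → Bool) :
    Option (ℕ → Bool) :=
  if h : ∃ Y, Rl g H m X Y then some h.choose else none

theorem fw_eq_some {g : Str → Str} {H : ℕ → Str → Str} {m : ℕ} (hg : SF g) {X Y : ℕ → Bool} :
    fw g H m X = some Y ↔ Rl g H m X Y := by
  unfold fw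
  constructor
  · intro h1
    split_ifs at h1 with h
    · simp only [Option.some.injEq] at h1
      rw [← h1]
      exact h.choose_spec
  · intro h1
    have h : ∃ Y, Rl g H m X Y := ⟨Y, h1⟩
    rw [dif_pos h]
    congr 1
    exact h.choose_spec.1.unique hg h1.1

/-- the oracle at the place `j` of the orbit -/
noncomputable def ob (g : Str → Str) (H : ℕ → Str → Str) (m : ℕ) (X : ℕ → Bool) (j : ℕ) :
    Option (ℕ → Bool) := it (fw g H m) j X

def In (g : Str → Str) (H : ℕ → Str → Str) (m : ℕ) (X : ℕ → Bool) (j : ℕ) : Prop :=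
  ∃ Y, ob g H m X j = some Y

noncomputable def zz (g : Str → Str) (H : ℕ → Str → Str) (m : ℕ) (X : ℕ → Bool) (j : ℕ) :
    ℕ → Bool := (ob g H m X j).getD fun _ => false

/-- the place `j` is verified to the length `n` -/
def ver (g : Str → Str) (H : ℕ → Str → Str) (m n j : ℕ) (σ : Str) : Prop :=
  n ≤ σ.length ∧ ∀ l < j, ok g H m n (g^[l] σ)

open Classical in
/-- the flag and the digits at the place `j` which are visible in `σ` at level `n` -/
noncomputable def Raw (g : Str → Str) (H : ℕ → Str → Str) (m n : ℕ) (σ : Str) (j b : ℕ) : Bool :=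
  decide (b ≤ n ∧ ver g H m n j σ ∧ (b = 0 ∨ (g^[j] σ).getD (b - 1) false = true))

open Classical in
/-- the flag and the digits at the place `j` -/
noncomputable def Rt (g : Str → Str) (H : ℕ → Str → Str) (m : ℕ) (X : ℕ → Bool) (j b : ℕ) : Bool :=
  decide (In g H m X j ∧ (b = 0 ∨ zz g H m X j (b - 1) = true))

/-- at level `n` the end of the orbit is visible -/
def Lv (g : Str → Str) (H : ℕ → Str → Str) (m : ℕ) (X : ℕ → Bool) (n : ℕ) : Prop :=
  ∀ j, In g H m X j → ¬ In g H m X (j + 1) → ∀ s, ¬ ok g H m n (pre (zz g H m X j) s)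

/-- the composition of the functionals on a list -/
def Hp (H : ℕ → Str → Str) (f : List ℕ) (σ : Str) : Str := f.foldr (fun l τ => H l τ) σ

section basic

variable {g : Str → Str} {H : ℕ → Str → Str} {m : ℕ} {X Y : ℕ → Bool}

theorem ob_eq_some {j : ℕ} (h1 : In g H m X j) : ob g H m X j = some (zz g H m X j) := by
  obtain ⟨Y, hY⟩ := h1
  unfold zz
  rw [hY]
  rfl

theorem In_zero (X : ℕ → Bool) : In g H m X 0 := ⟨X, rfl⟩

theorem zz_zero (X : ℕ → Bool) : zz g H m X 0 = X := rfl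

theorem ob_succ (X : ℕ → Bool) (j : ℕ) : ob g H m X (j + 1) = (ob g H m X j).bind (fw g H m) := rfl

theorem In_pred {j : ℕ} (h1 : In g H m X (j + 1)) : In g H m X j := by
  obtain ⟨Y, hY⟩ := h1
  rw [ob_succ, Option.bind_eq_some_iff] at hY
  obtain ⟨Z, hZ, -⟩ := hY
  exact ⟨Z, hZ⟩

theorem In_le {i j : ℕ} (hij : i ≤ j) (h1 : In g H m X j) : In g H m X i := by
  induction hij with
  | refl => exact h1
  | step _ ih => exact ih (In_pred h1)

variable (hg : SF g)

include hg

theorem Rl_succ {j : ℕ} (h1 : In g H m X (j + 1)) :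
    Rl g H m (zz g H m X j) (zz g H m X (j + 1)) := by
  have h2 := ob_eq_some (In_pred h1)
  have h3 := ob_eq_some h1
  rw [ob_succ, h2] at h3
  exact (fw_eq_some hg).1 h3

theorem Rl_next {j : ℕ} (h1 : In g H m X j) (h2 : Rl g H m (zz g H m X j) Y) :
    In g H m X (j + 1) ∧ zz g H m X (j + 1) = Y := by
  have h3 : ob g H m X (j + 1) = some Y := by
    rw [ob_succ, ob_eq_some h1]
    exact (fw_eq_some hg).2 h2
  refine ⟨⟨Y, h3⟩, ?_⟩
  unfold zz
  rw [h3]
  rfl

theorem ob_shift (hR : Rl g H m X Y) (j : ℕ) : ob g H m Y j = ob g H m X (j + 1) := by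
  unfold ob
  rw [it_succ, (fw_eq_some hg).2 hR]
  rfl

theorem In_shift (hR : Rl g H m X Y) {j : ℕ} : In g H m Y j ↔ In g H m X (j + 1) := by
  unfold In
  rw [ob_shift hg hR]

theorem zz_shift (hR : Rl g H m X Y) (j : ℕ) : zz g H m Y j = zz g H m X (j + 1) := by
  unfold zz
  rw [ob_shift hg hR]

theorem ap_nat (j : ℕ) : In g H m X j → Ap g^[j] X (zz g H m X j) := by
  induction j with
  | zero => intro _; exact Ap.refl X
  | succ j ih =>
    intro hj
    rw [Function.iterate_succ']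
    have h3 := (ih (In_pred hj)).comp hg (Rl_succ hg hj).1
    exact h3

theorem exists_back (d : ℕ) : ∀ X, In g H m X d → (∀ l, SF (H l)) → ∃ f : List ℕ, f.length = d ∧
    (∀ a ∈ f, a ≤ m) ∧ Ap (Hp H f) (zz g H m X d) X := by
  induction d with
  | zero => exact fun X _ _ => ⟨[], rfl, fun a ha => absurd ha (by simp), Ap.refl X⟩
  | succ d ih =>
    intro X hX hH
    have h1 := Rl_succ hg (In_le (by omega : 1 ≤ d + 1) hX)
    rw [zz_zero] at h1
    obtain ⟨f, h2, h3, h4⟩ := ih _ ((In_shift hg h1).2 hX) hH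
    rw [zz_shift hg h1] at h4
    obtain ⟨-, l, hl, h5⟩ := h1
    refine ⟨l :: f, by rw [List.length_cons, h2], fun a ha => ?_, ?_⟩
    · rw [List.mem_cons] at ha
      rcases ha with rfl | ha
      · exact hl.le
      · exact h3 a ha
    · have h6 := h4.comp (hH l) h5
      exact h6

end basic

theorem Hp_SF {H : ℕ → Str → Str} (hH : ∀ l, SF (H l)) (f : List ℕ) : SF (Hp H f) := by
  induction f with
  | nil => exact SF.id
  | cons l f ih => exact (hH l).comp ih

section facts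

variable {g : Str → Str} {H : ℕ → Str → Str} {m : ℕ} (hg : SF g) (hH : ∀ l, SF (H l))

include hg hH

theorem ver_mono {n j : ℕ} {σ τ : Str} (h1 : σ <+: τ) (h2 : ver g H m n j σ) : ver g H m n j τ :=
  ⟨h2.1.trans h1.length_le, fun l hl => ok_mono hg hH ((hg.iter l).mono _ _ h1) (h2.2 l hl)⟩

theorem ver_len {n j : ℕ} {σ : Str} (h2 : ver g H m n j σ) : n ≤ (g^[j] σ).length := by
  cases j with
  | zero => exact h2.1
  | succ j =>
    rw [Function.iterate_succ_apply']
    exact ok_len hg hH (h2.2 j (Nat.lt_succ_self j))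

omit hH in
theorem in_of_ver {X : ℕ → Bool} {n s : ℕ} (hL : Lv g H m X n) (j : ℕ) :
    ver g H m n j (pre X s) → In g H m X j := by
  induction j with
  | zero => intro _; exact In_zero X
  | succ j ih =>
    intro hv
    have h1 := ih ⟨hv.1, fun l hl => hv.2 l (by omega)⟩
    by_contra hc
    have h2 := hv.2 j (Nat.lt_succ_self j)
    rw [(ap_nat hg j h1).eq_pre (hg.iter j)] at h2
    exact hL j h1 hc _ h2

theorem ver_of_in {X : ℕ → Bool} (n j : ℕ) : In g H m X j → ∃ s, ∀ s' ≥ s, ver g H m n j (pre X s') := by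
  induction j with
  | zero =>
    intro _
    exact ⟨n, fun s' hs' => ⟨by simpa using hs', fun l hl => by omega⟩⟩
  | succ j ih =>
    intro hj
    have h1 := In_pred hj
    obtain ⟨s1, hs1⟩ := ih h1
    obtain ⟨s2, hs2⟩ := ok_of_Rl hg hH (Rl_succ hg hj) n
    have h3 := ap_nat hg j h1
    obtain ⟨s3, hs3⟩ := h3.len (hg.iter j) s2
    refine ⟨max s1 s3, fun s' hs' => ⟨(hs1 s' (by omega)).1, fun l hl => ?_⟩⟩
    rcases Nat.lt_succ_iff_lt_or_eq.1 hl with hl' | rfl
    · exact (hs1 s' (by omega)).2 l hl'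
    · rw [h3.eq_pre (hg.iter l)]
      exact hs2 _ (hs3 s' (by omega))

omit hg hH in
theorem Rt_flag {X : ℕ → Bool} {j : ℕ} : Rt g H m X j 0 = true ↔ In g H m X j := by
  unfold Rt
  simp

/-- an entry which is final -/
theorem Raw_eq {X : ℕ → Bool} {n s : ℕ} (hL : Lv g H m X n) {j b : ℕ} (hb : b ≤ n)
    (hv : ¬ In g H m X j ∨ ver g H m n j (pre X s)) : Raw g H m n (pre X s) j b = Rt g H m X j b := by
  by_cases hin : In g H m X j
  · have hv' := hv.resolve_left (not_not.2 hin)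
    have h2 := ver_len hg hH hv'
    have h3 := (ap_nat hg j hin).eq_pre (hg.iter j) s
    unfold Raw Rt
    simp only [hb, hv', hin, true_and]
    rcases Nat.eq_zero_or_pos b with rfl | hb0
    · simp
    · have h4 : b ≠ 0 := by omega
      have h5 := pre_getD (zz g H m X j) (g^[j] (pre X s)).length (b - 1) false (by omega)
      rw [← h3] at h5
      rw [h5]
  · have h1 : ¬ ver g H m n j (pre X s) := fun h => hin (in_of_ver hg hL j h)
    unfold Raw Rt
    simp [h1, hin]

theorem exists_Lv (X : ℕ → Bool) : ∃ n0, ∀ n ≥ n0, Lv g H m X n := by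
  by_cases hex : ∃ j, In g H m X j ∧ ¬ In g H m X (j + 1)
  · obtain ⟨j, h1, h2⟩ := hex
    have h3 : ∃ n0, ∀ s, ¬ ok g H m n0 (pre (zz g H m X j) s) := by
      by_contra hc
      push Not at hc
      obtain ⟨Y, hY⟩ := Rl_of_ok hg hH hc
      exact h2 (Rl_next hg h1 hY).1
    obtain ⟨n0, hn0⟩ := h3
    refine ⟨n0, fun n hn j' h1' h2' s hs => ?_⟩
    have : j' = j := by
      by_contra hne
      rcases lt_or_gt_of_ne hne with h4 | h4
      · exact h2' (In_le (by omega) h1)
      · exact h2 (In_le (by omega) h1')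
    subst this
    exact hn0 s (ok_anti hn hs)
  · push Not at hex
    exact ⟨0, fun n _ j h1 h2 => absurd (hex j h1) h2⟩

omit hH in
theorem Rt_shift {X Y : ℕ → Bool} (hR : Rl g H m X Y) : Rt g H m Y = sh (Rt g H m X) 1 := by
  funext j b
  unfold sh Rt
  rw [zz_shift hg hR, Nat.add_comm 1 j]
  congr 1
  rw [In_shift hg hR]

omit hg hH in
theorem Dp_In {X : ℕ → Bool} {n d : ℕ} (h : Dp (Rt g H m X) n d) : In g H m X d := by
  rcases Nat.eq_zero_or_pos d with rfl | hd
  · exact In_zero X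
  · have := h.flag (j := d - 1) (by omega)
    rwa [show d - 1 + 1 = d by omega, Rt_flag] at this

omit hH in
/-- the first cuts for two neighbours are finally at the same point -/
theorem Rl_link {X Y : ℕ → Bool} (hR : Rl g H m X Y) : ∃ N, ∀ n ≥ N, ∀ a b,
    Dp (Rt g H m X) n a → Dp (Rt g H m Y) n b → zz g H m X a = zz g H m Y b := by
  have h1 := Rl_next hg (X := X) (j := 0) (In_zero X) hR
  obtain ⟨N, hN⟩ := link (Rt g H m X) (Rt_flag.2 h1.1) fun i hi => Rt_flag.2 (In_pred (Rt_flag.1 hi))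
  refine ⟨N, fun n hn a b ha hb => ?_⟩
  have h2 := hN n hn a b ha (by rwa [← Rt_shift hg hR])
  rw [← Rt_shift hg hR] at h2
  have h3 : Rt g H m X a = Rt g H m Y b := congrFun h2 0
  have ia := Dp_In ha
  have ib := Dp_In hb
  funext c
  have h4 := congrFun h3 (c + 1)
  unfold Rt at h4
  simp only [ia, ib, true_and, Nat.add_sub_cancel, decide_eq_decide, Nat.succ_ne_zero,
    false_or] at h4
  rw [Bool.eq_iff_iff]
  exact h4

end facts

end Pool.Agent.V7H75.TG
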